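import Mathlib

open Equiv

namespace Pool.Agent.H85

/-- The circle `ℝ/ℤ`. -/
abbrev S := AddCircle (1 : ℝ)

lemma coe_one_eq : ((1 : ℝ) : S) = 0 := AddCircle.coe_period 1

/-- the point `1/2` -/
noncomputable def hh : S := ((1 / 2 : ℝ) : S)

lemma hh_add : hh + hh = 0 := by
  unfold hh
  rw [← AddCircle.coe_add]
  norm_num
  

lemma neg_hh : -hh = hh := by
  rw [neg_eq_iff_add_eq_zero]; exact hh_add

lemma exists_rep (y : S) : ∃ t : ℝ, 0 ≤ t ∧ t < 1 ∧ (t : S) = y := by
  refine ⟨(AddCircle.equivIco 1 0 y).1, (AddCircle.equivIco 1 0 y).2.1, ?_, ?_⟩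
  · have := (AddCircle.equivIco 1 0 y).2.2
    simpa using this
  · exact AddCircle.coe_equivIco

lemma coe_inj {t t' : ℝ} (h0 : 0 ≤ t) (h1 : t < 1) (h0' : 0 ≤ t') (h1' : t' < 1)
    (h : (t : S) = (t' : S)) : t = t' := by
  have := (AddCircle.coe_eq_coe_iff_of_mem_Ico (p := (1 : ℝ)) (a := 0) (x := t) (y := t')
    ⟨h0, by linarith⟩ ⟨h0', by linarith⟩).1 h
  exact this

lemma hh_ne : hh ≠ 0 := by
  intro h
  have := coe_inj (t := 1 / 2) (t' := 0) (by norm_num) (by norm_num) le_rfl (by norm_num)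
    (by rw [AddCircle.coe_zero]; exact h)
  norm_num at this

/-- the half-open arc `[0,s)` of the circle -/
def arc (s : ℝ) : Set S := {y | ∃ t : ℝ, 0 ≤ t ∧ t < s ∧ (t : S) = y}

lemma mem_arc {s t : ℝ} (h0 : 0 ≤ t) (h1 : t < 1) (hs : s ≤ 1) : (t : S) ∈ arc s ↔ t < s := by
  constructor
  · rintro ⟨t', h0', h1', h⟩
    have := coe_inj h0' (by linarith) h0 h1 h
    linarith
  · intro h
    exact ⟨t, h0, h, rfl⟩

lemma coe_sub_one (t : ℝ) : ((t - 1 : ℝ) : S) = (t : S) := by
  rw [AddCircle.coe_sub, coe_one_eq, sub_zero]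

lemma coe_add_one (t : ℝ) : ((t + 1 : ℝ) : S) = (t : S) := by
  rw [AddCircle.coe_add, coe_one_eq, add_zero]

lemma mem_arc_sub {r s t : ℝ} (h0 : 0 ≤ r) (h1 : r < 1) (hs : 0 < s) (ht : 0 < t)
    (hst : s + t < 1) : ((r : S) - (s : S)) ∈ arc t ↔ s ≤ r ∧ r < s + t := by
  rw [← AddCircle.coe_sub]
  by_cases h : s ≤ r
  · rw [mem_arc (by linarith) (by linarith) (by linarith)]
    constructor
    · intro h'; exact ⟨h, by linarith⟩
    · intro h'; linarith [h'.2]
  · push Not at h
    rw [← coe_add_one, mem_arc (by linarith) (by linarith) (by linarith)]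
    constructor
    · intro h'; exfalso; linarith
    · intro h'; exfalso; linarith [h'.1]

open scoped Classical in
/-- indicator with values in `ZMod 2` -/
noncomputable def ind (P : Prop) : ZMod 2 := if P then 1 else 0

lemma ind_cocycle {s t : ℝ} (hs : 0 < s) (ht : 0 < t) (hst : s + t < 1) (y : S) :
    ind (y ∈ arc s) + ind (y - (s : S) ∈ arc t) = ind (y ∈ arc t) + ind (y - (t : S) ∈ arc s) := by
  obtain ⟨r, h0, h1, rfl⟩ := exists_rep y
  rw [mem_arc_sub h0 h1 hs ht hst, mem_arc_sub h0 h1 ht hs (by linarith),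
    mem_arc h0 h1 (by linarith), mem_arc h0 h1 (by linarith)]
  unfold ind
  by_cases c1 : r < s <;> by_cases c2 : r < t <;> by_cases c3 : r < s + t
  all_goals
    have e1 : (s ≤ r) ↔ ¬ (r < s) := not_lt.symm
    have e2 : (t ≤ r) ↔ ¬ (r < t) := not_lt.symm
    have e3 : (r < t + s) ↔ (r < s + t) := by rw [add_comm]
    first
      | (exfalso; linarith)
      | simp [e1, e2, e3, c1, c2, c3]

lemma ind_symm {s : ℝ} (hs : 0 < s) (hs1 : s < 1) (y : S) :
    ind (-y ∈ arc s) + ind (y + (s : S) ∈ arc s) = ind (y = 0) + ind (y = -(s : S)) := by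
  obtain ⟨r, h0, h1, rfl⟩ := exists_rep y
  have k0 : ((r : S) = 0) ↔ r = 0 := by
    constructor
    · intro h
      have h' : (r : S) = ((0 : ℝ) : S) := by rw [h]; rfl
      exact coe_inj h0 h1 le_rfl one_pos h'
    · rintro rfl; rfl
  have k1 : ((r : S) = -(s : S)) ↔ r = 1 - s := by
    have : -(s : S) = ((1 - s : ℝ) : S) := by
      rw [AddCircle.coe_sub, coe_one_eq, zero_sub]
    rw [this]
    constructor
    · intro h
      exact coe_inj h0 h1 (by linarith) (by linarith) h
    · rintro rfl; rfl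
  have k2 : (-(r : S) ∈ arc s) ↔ (r = 0 ∨ 1 - s < r) := by
    rcases eq_or_lt_of_le h0 with h | h
    · subst h
      rw [AddCircle.coe_zero, neg_zero, ← AddCircle.coe_zero, mem_arc le_rfl one_pos hs1.le]
      simp [hs]
    · rw [← AddCircle.coe_neg, ← coe_add_one, mem_arc (by linarith) (by linarith) hs1.le]
      constructor
      · intro h'; right; linarith
      · rintro (h' | h')
        · linarith
        · linarith
  have k3 : ((r : S) + (s : S) ∈ arc s) ↔ 1 - s ≤ r := by
    rw [← AddCircle.coe_add]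
    by_cases h : r + s < 1
    · rw [mem_arc (by linarith) h hs1.le]
      constructor
      · intro h'; linarith
      · intro h'; linarith
    · push Not at h
      rw [← coe_sub_one, mem_arc (by linarith) (by linarith) hs1.le]
      constructor
      · intro h'; linarith
      · intro h'; linarith
  rw [k0, k1, k2, k3]
  unfold ind
  rcases lt_trichotomy r (1 - s) with h | h | h
  · have e1 : ¬ (1 - s < r) := not_lt.2 h.le
    have e2 : ¬ (1 - s ≤ r) := not_le.2 h
    have e3 : ¬ (r = 1 - s) := h.ne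
    simp [e1, e2, e3]
  · have e1 : ¬ (1 - s < r) := not_lt.2 h.le
    have e2 : (1 - s ≤ r) := h.ge
    have e3 : ¬ (r = 0) := by rw [h]; linarith
    have e4 : ¬ (1 - s = 0) := by intro h'; linarith
    simp [h, e4]
  · have e1 : (1 - s < r) := h
    have e2 : (1 - s ≤ r) := h.le
    have e3 : ¬ (r = 0) := by intro h'; linarith
    have e4 : ¬ (r = 1 - s) := h.ne'
    simp only [e1, e2, e3, e4]
    simp
    decide

end Pool.Agent.H85
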