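import Mathlib

open Equiv

namespace Pool.Agent.H85

/-- finitely supported permutations -/
def FS (X : Type*) : Subgroup (Perm X) where
  carrier := {f | {x | f x ≠ x}.Finite}
  one_mem' := by simp
  mul_mem' := by
    intro f g hf hg
    refine (hf.union hg).subset ?_
    intro x hx
    by_contra h
    simp only [Set.mem_union, Set.mem_ofPred_eq, not_or, not_not] at h
    apply hx
    simp [Perm.mul_apply, h.1, h.2]
  inv_mem' := by
    intro f hf
    refine hf.subset ?_
    intro x hx h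
    apply hx
    rw [Perm.inv_eq_iff_eq]
    exact h.symm

instance (X : Type*) : (FS X).Normal where
  conj_mem := by
    intro f hf g
    have : {x | (g * f * g⁻¹) x ≠ x} ⊆ g '' {x | f x ≠ x} := by
      intro x hx
      refine ⟨g⁻¹ x, ?_, by simp⟩
      intro h
      apply hx
      rw [Perm.mul_apply, Perm.mul_apply, h]
      exact Equiv.apply_symm_apply g x
    exact (Set.Finite.image g hf).subset this

lemma mem_FS {X : Type*} {f : Perm X} : f ∈ FS X ↔ {x | f x ≠ x}.Finite := Iff.rfl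

/-- near equality -/
lemma near_iff {X : Type*} {f g : Perm X} :
    {x | f x ≠ g x}.Finite ↔ (QuotientGroup.mk f : Perm X ⧸ FS X) = QuotientGroup.mk g := by
  rw [QuotientGroup.eq, mem_FS]
  have : {x | (f⁻¹ * g) x ≠ x} = {x | f x ≠ g x} := by
    ext x
    simp only [Set.mem_ofPred_eq, Perm.mul_apply, ne_eq, not_iff_not]
    rw [Perm.inv_eq_iff_eq]
    exact eq_comm
  rw [this]

section
variable {X : Type*} (A B a b : Perm X)

lemma zpow_mul_comm' {A B : Perm X} (h : Commute A B) (m n k l : ℤ) :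
    (A ^ m * B ^ n) * (A ^ k * B ^ l) = A ^ (m + k) * B ^ (n + l) := by
  have h1 : B ^ n * A ^ k = A ^ k * B ^ n := ((h.zpow_zpow k n).symm).eq
  calc (A ^ m * B ^ n) * (A ^ k * B ^ l) = A ^ m * (B ^ n * A ^ k) * B ^ l := by group
    _ = A ^ m * (A ^ k * B ^ n) * B ^ l := by rw [h1]
    _ = A ^ (m + k) * B ^ (n + l) := by rw [zpow_add, zpow_add]; group

lemma zpow_inv' {A B : Perm X} (h : Commute A B) (m n : ℤ) :
    (A ^ m * B ^ n)⁻¹ = A ^ (-m) * B ^ (-n) := by
  rw [inv_eq_iff_mul_eq_one, zpow_mul_comm' h]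
  simp

/-- eventual constancy on `ℤ²` -/
lemma lattice_const {φ : ℤ → ℤ → X} (M : ℤ)
    (h1 : ∀ m n, (M < |m| ∨ M < |n|) → φ (m + 1) n = φ m n)
    (h2 : ∀ m n, (M < |m| ∨ M < |n|) → φ m (n + 1) = φ m n) :
    ∀ m n, (M < |m| ∨ M < |n|) → φ m n = φ (|M| + 1) (|M| + 1) := by
  have hM : M < |(|M| + 1)| := by
    rw [abs_of_nonneg (by positivity)]
    have := le_abs_self M
    omega
  have V : ∀ m, M < |m| → ∀ n, φ m n = φ m (|M| + 1) := by
    intro m hm
    have key : ∀ n, φ m (n + 1) = φ m n := fun n => h2 m n (Or.inl hm)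
    have k2 : ∀ n : ℤ, φ m n = φ m 0 := by
      intro n
      induction n using Int.induction_on with
      | zero => rfl
      | succ i hi => rw [key, hi]
      | pred i hi =>
        have := key (-(i : ℤ) - 1)
        rw [sub_add_cancel] at this
        rw [← this, hi]
    intro n
    rw [k2 n, k2 (|M| + 1)]
  have H : ∀ n, M < |n| → ∀ m, φ m n = φ (|M| + 1) n := by
    intro n hn
    have key : ∀ m, φ (m + 1) n = φ m n := fun m => h1 m n (Or.inr hn)
    have k2 : ∀ m : ℤ, φ m n = φ 0 n := by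
      intro m
      induction m using Int.induction_on with
      | zero => rfl
      | succ i hi => rw [key, hi]
      | pred i hi =>
        have := key (-(i : ℤ) - 1)
        rw [sub_add_cancel] at this
        rw [← this, hi]
    intro m
    rw [k2 m, k2 (|M| + 1)]
  intro m n h
  rcases h with h | h
  · rw [V m h n, H _ hM m]
  · rw [H n h m, V _ hM n]

/-- `c` is the limit of `x` at infinity -/
def IsLim (A B a b : Perm X) (x c : X) : Prop :=
  ∃ M : ℤ, ∀ m n : ℤ, (M < |m| ∨ M < |n|) → (a ^ m * b ^ n) x = (A ^ m * B ^ n) c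

variable {A B a b}

lemma IsLim.unique {x c c' : X} (h : IsLim A B a b x c) (h' : IsLim A B a b x c') : c = c' := by
  obtain ⟨M, hM⟩ := h
  obtain ⟨M', hM'⟩ := h'
  have e1 : M < |(|M| + |M'| + 1)| := by
    rw [abs_of_nonneg (by positivity)]
    have := le_abs_self M; have := abs_nonneg M'; omega
  have e2 : M' < |(|M| + |M'| + 1)| := by
    rw [abs_of_nonneg (by positivity)]
    have := le_abs_self M'; have := abs_nonneg M; omega
  have h1 := hM (|M| + |M'| + 1) 0 (Or.inl e1)
  have h2 := hM' (|M| + |M'| + 1) 0 (Or.inl e2)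
  rw [h1] at h2
  exact (A ^ (|M| + |M'| + 1) * B ^ (0 : ℤ)).injective h2

lemma IsLim.unique' {x x' c : X} (h : IsLim A B a b x c) (h' : IsLim A B a b x' c) : x = x' := by
  obtain ⟨M, hM⟩ := h
  obtain ⟨M', hM'⟩ := h'
  have e1 : M < |(|M| + |M'| + 1)| := by
    rw [abs_of_nonneg (by positivity)]
    have := le_abs_self M; have := abs_nonneg M'; omega
  have e2 : M' < |(|M| + |M'| + 1)| := by
    rw [abs_of_nonneg (by positivity)]
    have := le_abs_self M'; have := abs_nonneg M; omega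
  have h1 := hM (|M| + |M'| + 1) 0 (Or.inl e1)
  have h2 := hM' (|M| + |M'| + 1) 0 (Or.inl e2)
  rw [← h2] at h1
  exact (a ^ (|M| + |M'| + 1) * b ^ (0 : ℤ)).injective h1

lemma IsLim.shift (hAB : Commute A B) (hab : Commute a b) {x c : X} (h : IsLim A B a b x c)
    (k l : ℤ) : IsLim A B a b ((a ^ k * b ^ l) x) ((A ^ k * B ^ l) c) := by
  obtain ⟨M, hM⟩ := h
  refine ⟨|M| + |k| + |l|, fun m n hmn => ?_⟩
  rw [← Perm.mul_apply, ← Perm.mul_apply, zpow_mul_comm' hab, zpow_mul_comm' hAB]
  apply hM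
  have h1 := le_abs_self M
  have h2 := abs_nonneg k
  have h3 := abs_nonneg l
  have h4 := abs_nonneg M
  rcases hmn with h | h
  · left
    have := abs_sub_abs_le_abs_sub m (-k)
    rw [abs_neg, sub_neg_eq_add] at this
    omega
  · right
    have := abs_sub_abs_le_abs_sub n (-l)
    rw [abs_neg, sub_neg_eq_add] at this
    omega

end

/-- **Normalisation.** Two commuting permutations which agree, off a finite set, with the two
generators of a free action of `ℤ²` are conjugate to them by a finitely supported permutation. -/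
theorem exists_conj {X : Type*} {A B a b : Perm X} (hAB : Commute A B) (hab : Commute a b)
    (hfree : ∀ (m n : ℤ) (x : X), (A ^ m * B ^ n) x = x → m = 0 ∧ n = 0)
    (ha : {x | a x ≠ A x}.Finite) (hb : {x | b x ≠ B x}.Finite) :
    ∃ s : Perm X, {x | s x ≠ x}.Finite ∧ s * a = A * s ∧ s * b = B * s := by
  classical
  -- near equality of all words
  have hnear : ∀ m n : ℤ, {x | (a ^ m * b ^ n) x ≠ (A ^ m * B ^ n) x}.Finite := by
    intro m n
    rw [near_iff] at ha hb ⊢
    rw [QuotientGroup.mk_mul, QuotientGroup.mk_mul, QuotientGroup.mk_zpow, QuotientGroup.mk_zpow,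
      QuotientGroup.mk_zpow, QuotientGroup.mk_zpow, ha, hb]
  set E : Set X := {x | a x ≠ A x} ∪ {x | b x ≠ B x} with hE
  have hEfin : E.Finite := ha.union hb
  have hEa : ∀ x, x ∉ E → a x = A x := by
    intro x hx
    by_contra h
    exact hx (Or.inl h)
  have hEb : ∀ x, x ∉ E → b x = B x := by
    intro x hx
    by_contra h
    exact hx (Or.inr h)
  have hcomm := fun m n k l : ℤ => zpow_mul_comm' hab m n k l
  have hcommA := fun m n k l : ℤ => zpow_mul_comm' hAB m n k l
  -- step
  have step1 : ∀ (x : X) (m n : ℤ), (a ^ m * b ^ n) x ∉ E →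
      (A ^ (m + 1) * B ^ n)⁻¹ ((a ^ (m + 1) * b ^ n) x) = (A ^ m * B ^ n)⁻¹ ((a ^ m * b ^ n) x) := by
    intro x m n hx
    have h1 : (a ^ (m + 1) * b ^ n) = a * (a ^ m * b ^ n) := by
      rw [add_comm, zpow_add, zpow_one]; group
    have h2 : (A ^ (m + 1) * B ^ n) = A * (A ^ m * B ^ n) := by
      rw [add_comm, zpow_add, zpow_one]; group
    rw [h1, h2, mul_inv_rev, Perm.mul_apply, Perm.mul_apply a, hEa _ hx]
    simp
  have step2 : ∀ (x : X) (m n : ℤ), (a ^ m * b ^ n) x ∉ E →
      (A ^ m * B ^ (n + 1))⁻¹ ((a ^ m * b ^ (n + 1)) x) = (A ^ m * B ^ n)⁻¹ ((a ^ m * b ^ n) x) := by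
    intro x m n hx
    have h1 : (a ^ m * b ^ (n + 1)) = b * (a ^ m * b ^ n) := by
      have := hcomm 0 1 m n
      rw [zero_add, add_comm 1 n, zpow_zero, one_mul, zpow_one] at this
      exact this.symm
    have h2 : (A ^ m * B ^ (n + 1)) = B * (A ^ m * B ^ n) := by
      have := hcommA 0 1 m n
      rw [zero_add, add_comm 1 n, zpow_zero, one_mul, zpow_one] at this
      exact this.symm
    rw [h1, h2, mul_inv_rev, Perm.mul_apply, Perm.mul_apply b, hEb _ hx]
    simp
  -- free points
  set Fr : Set X := {x | ∀ m n : ℤ, (a ^ m * b ^ n) x = x → m = 0 ∧ n = 0} with hFr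
  have free_lim : ∀ x ∈ Fr, ∃ c, IsLim A B a b x c := by
    intro x hx
    have hinj : Function.Injective (fun p : ℤ × ℤ => (a ^ p.1 * b ^ p.2) x) := by
      rintro ⟨m, n⟩ ⟨k, l⟩ h
      simp only at h
      have h' : (a ^ (m - k) * b ^ (n - l)) x = x := by
        have e : (a ^ (m - k) * b ^ (n - l)) = (a ^ (-k) * b ^ (-l)) * (a ^ m * b ^ n) := by
          rw [hcomm]; congr 2 <;> ring
        rw [e, Perm.mul_apply, h, ← Perm.mul_apply, hcomm]
        simp
      have := hx _ _ h'
      ext <;> simp <;> omega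
    have hfin : {p : ℤ × ℤ | (a ^ p.1 * b ^ p.2) x ∈ E}.Finite :=
      hEfin.preimage (hinj.injOn)
    obtain ⟨M, hM⟩ : ∃ M : ℤ, ∀ m n : ℤ, (M < |m| ∨ M < |n|) → (a ^ m * b ^ n) x ∉ E := by
      have hf2 : ((fun p : ℤ × ℤ => |p.1| + |p.2|) '' {p : ℤ × ℤ | (a ^ p.1 * b ^ p.2) x ∈ E}).Finite :=
        hfin.image _
      obtain ⟨M, hM⟩ := hf2.bddAbove
      refine ⟨M, fun m n hmn hmem => ?_⟩
      have := hM ⟨(m, n), hmem, rfl⟩
      simp only at this
      have h1 := abs_nonneg m
      have h2 := abs_nonneg n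
      omega
    have key := lattice_const (φ := fun m n => (A ^ m * B ^ n)⁻¹ ((a ^ m * b ^ n) x)) M
      (fun m n h => step1 x m n (hM m n h)) (fun m n h => step2 x m n (hM m n h))
    refine ⟨(A ^ (|M| + 1) * B ^ (|M| + 1))⁻¹ ((a ^ (|M| + 1) * b ^ (|M| + 1)) x), M,
      fun m n hmn => ?_⟩
    have h1 := key m n hmn
    rw [← h1]
    exact (Equiv.apply_symm_apply _ _).symm
  -- points whose orbit avoids E
  have avoid : ∀ x, (∀ m n : ℤ, (a ^ m * b ^ n) x ∉ E) →
      ∀ m n : ℤ, (a ^ m * b ^ n) x = (A ^ m * B ^ n) x := by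
    intro x hx m n
    have key := lattice_const (φ := fun m n => (A ^ m * B ^ n)⁻¹ ((a ^ m * b ^ n) x)) (-1)
      (fun m n _ => step1 x m n (hx m n)) (fun m n _ => step2 x m n (hx m n))
    have h0 := key 0 0 (by simp)
    have h1 := key m n (by left; have := abs_nonneg m; omega)
    rw [← h0] at h1
    simp only [zpow_zero, mul_one, inv_one, Perm.one_apply] at h1
    rw [Perm.inv_eq_iff_eq] at h1
    exact h1
  -- the non-free points form a finite set
  have hNF : (Frᶜ).Finite := by
    have hsub : Frᶜ ⊆ ⋃ e ∈ E \ Fr, {x | ∃ k l : ℤ, (a ^ k * b ^ l) e = x} := by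
      intro x hx
      have hx' : ∃ m n : ℤ, (a ^ m * b ^ n) x = x ∧ ¬ (m = 0 ∧ n = 0) := by
        by_contra hcon
        push Not at hcon
        exact hx (fun m n h => hcon m n h)
      obtain ⟨m, n, hmn, hne⟩ := hx'
      have hmeet : ∃ k l : ℤ, (a ^ k * b ^ l) x ∈ E := by
        by_contra hcon
        push Not at hcon
        have := avoid x hcon m n
        rw [hmn] at this
        exact hne (hfree m n x this.symm)
      obtain ⟨k, l, hkl⟩ := hmeet
      simp only [Set.mem_iUnion, Set.mem_ofPred_eq]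
      refine ⟨(a ^ k * b ^ l) x, ⟨hkl, ?_⟩, -k, -l, ?_⟩
      · intro hfr
        apply hne
        apply hfr m n
        rw [← Perm.mul_apply, hcomm, add_comm m k, add_comm n l, ← hcomm, Perm.mul_apply, hmn]
      · rw [← Perm.mul_apply, hcomm]
        simp
    refine Set.Finite.subset (Set.Finite.biUnion (hEfin.subset Set.sdiff_subset) ?_) hsub
    rintro e ⟨-, he⟩
    have he' : ∃ m n : ℤ, (a ^ m * b ^ n) e = e ∧ ¬ (m = 0 ∧ n = 0) := by
      by_contra hcon
      push Not at hcon
      exact he (fun m n h => hcon m n h)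
    obtain ⟨m, n, hmn, hne⟩ := he'
    refine (hnear m n).subset ?_
    rintro x ⟨k, l, rfl⟩ heq
    have e1 : (a ^ m * b ^ n) ((a ^ k * b ^ l) e) = (a ^ k * b ^ l) e := by
      rw [← Perm.mul_apply, hcomm, add_comm m k, add_comm n l, ← hcomm, Perm.mul_apply, hmn]
    rw [e1] at heq
    exact hne (hfree m n _ heq.symm)
  -- invariance of free points
  have Fr_inv : ∀ x ∈ Fr, ∀ k l : ℤ, (a ^ k * b ^ l) x ∈ Fr := by
    intro x hx k l m n hmn
    apply hx m n
    rw [← Perm.mul_apply, hcomm, add_comm m k, add_comm n l, ← hcomm, Perm.mul_apply] at hmn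
    exact (a ^ k * b ^ l).injective hmn
  choose! lim hlim using free_lim
  have lim_shift : ∀ x ∈ Fr, ∀ k l : ℤ, lim ((a ^ k * b ^ l) x) = (A ^ k * B ^ l) (lim x) := by
    intro x hx k l
    exact (hlim _ (Fr_inv x hx k l)).unique ((hlim x hx).shift hAB hab k l)
  -- lim is the identity at all but finitely many free points
  have hT1 : {x | x ∈ Fr ∧ lim x ≠ x}.Finite := by
    have hsub : {x | x ∈ Fr ∧ lim x ≠ x} ⊆
        ⋃ e ∈ E ∩ Fr, {x | ∃ k l : ℤ, (a ^ k * b ^ l) e = x ∧ (A ^ k * B ^ l) (lim e) ≠ x} := by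
      rintro x ⟨hx, hne⟩
      have hmeet : ∃ k l : ℤ, (a ^ k * b ^ l) x ∈ E := by
        by_contra hcon
        push Not at hcon
        have h1 : IsLim A B a b x x := ⟨0, fun m n _ => avoid x hcon m n⟩
        exact hne ((hlim x hx).unique h1)
      obtain ⟨k, l, hkl⟩ := hmeet
      simp only [Set.mem_iUnion, Set.mem_ofPred_eq]
      have e1 : (a ^ (-k) * b ^ (-l)) ((a ^ k * b ^ l) x) = x := by
        rw [← Perm.mul_apply, hcomm]
        simp
      refine ⟨(a ^ k * b ^ l) x, ⟨hkl, Fr_inv x hx k l⟩, -k, -l, e1, ?_⟩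
      rw [lim_shift x hx, ← Perm.mul_apply, hcommA]
      simpa using hne
    refine Set.Finite.subset (Set.Finite.biUnion (hEfin.subset Set.inter_subset_left) ?_) hsub
    rintro e ⟨-, he⟩
    obtain ⟨M, hM⟩ := hlim e he
    have : {x | ∃ k l : ℤ, (a ^ k * b ^ l) e = x ∧ (A ^ k * B ^ l) (lim e) ≠ x} ⊆
        (fun p : ℤ × ℤ => (a ^ p.1 * b ^ p.2) e) '' (Set.Icc (-|M|) |M| ×ˢ Set.Icc (-|M|) |M|) := by
      rintro x ⟨k, l, rfl, hne⟩
      refine ⟨(k, l), ?_, rfl⟩
      have hk : ¬ (M < |k| ∨ M < |l|) := fun h => hne (hM k l h).symm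
      push Not at hk
      have h1 : |k| ≤ |M| := hk.1.trans (le_abs_self M)
      have h2 : |l| ≤ |M| := hk.2.trans (le_abs_self M)
      exact ⟨abs_le.1 h1, abs_le.1 h2⟩
    exact (((Set.finite_Icc _ _).prod (Set.finite_Icc _ _)).image _).subset this
  -- surjectivity
  have hsurj : ∀ w, ∃ x ∈ Fr, lim x = w := by
    intro w
    have hinj : Function.Injective (fun m : ℤ => (A ^ m * B ^ (0 : ℤ)) w) := by
      intro m k h
      simp only at h
      have h' : (A ^ (m - k) * B ^ (0 : ℤ)) w = w := by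
        have e : (A ^ (m - k) * B ^ (0 : ℤ)) = (A ^ (-k) * B ^ (0 : ℤ)) * (A ^ m * B ^ (0 : ℤ)) := by
          rw [hcommA]; congr 2; ring
        rw [e, Perm.mul_apply, h, ← Perm.mul_apply, hcommA]
        simp
      have := (hfree _ _ _ h').1
      omega
    have hfin : (Frᶜ ∪ {x | x ∈ Fr ∧ lim x ≠ x}).Finite := hNF.union hT1
    obtain ⟨m, hm⟩ : ∃ m : ℤ, (A ^ m * B ^ (0 : ℤ)) w ∉ Frᶜ ∪ {x | x ∈ Fr ∧ lim x ≠ x} := by
      by_contra hcon
      push Not at hcon
      exact Set.infinite_univ ((hfin.preimage hinj.injOn).subset (fun m _ => hcon m))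
    rw [Set.mem_union, not_or] at hm
    obtain ⟨hm1, hm2⟩ := hm
    rw [Set.mem_compl_iff, not_not] at hm1
    have hm3 : lim ((A ^ m * B ^ (0 : ℤ)) w) = (A ^ m * B ^ (0 : ℤ)) w := by
      by_contra h
      exact hm2 ⟨hm1, h⟩
    refine ⟨(a ^ (-m) * b ^ (0 : ℤ)) ((A ^ m * B ^ (0 : ℤ)) w), Fr_inv _ hm1 _ _, ?_⟩
    rw [lim_shift _ hm1, hm3, ← Perm.mul_apply, hcommA]
    simp
  -- no non-free point
  have hall : ∀ x, x ∈ Fr := by
    set T1 : Finset X := hT1.toFinset with hT1def
    set NF : Finset X := hNF.toFinset with hNFdef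
    have hdisj : Disjoint T1 NF := by
      rw [Finset.disjoint_left]
      intro x hx hx'
      rw [hT1def, Set.Finite.mem_toFinset] at hx
      rw [hNFdef, Set.Finite.mem_toFinset] at hx'
      exact hx' hx.1
    have hsub : T1 ∪ NF ⊆ T1.image lim := by
      intro w hw
      obtain ⟨x, hx, hxw⟩ := hsurj w
      rw [Finset.mem_image]
      refine ⟨x, ?_, hxw⟩
      rw [hT1def, Set.Finite.mem_toFinset]
      refine ⟨hx, fun hxx => ?_⟩
      rw [hxx] at hxw
      subst hxw
      rw [Finset.mem_union] at hw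
      rcases hw with hw | hw
      · rw [hT1def, Set.Finite.mem_toFinset] at hw
        exact hw.2 hxx
      · rw [hNFdef, Set.Finite.mem_toFinset] at hw
        exact hw hx
    have hc := (Finset.card_le_card hsub).trans Finset.card_image_le
    rw [Finset.card_union_of_disjoint hdisj] at hc
    have hNF0 : NF = ∅ := Finset.card_eq_zero.1 (by omega)
    intro x
    by_contra hx
    have : x ∈ NF := by rw [hNFdef, Set.Finite.mem_toFinset]; exact hx
    rw [hNF0] at this
    simp at this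
  have hinj : Function.Injective lim := by
    intro x y h
    have h1 := hlim x (hall x)
    have h2 := hlim y (hall y)
    rw [h] at h1
    exact h1.unique' h2
  have hsur : Function.Surjective lim := fun w => by
    obtain ⟨x, -, hx⟩ := hsurj w
    exact ⟨x, hx⟩
  refine ⟨Equiv.ofBijective lim ⟨hinj, hsur⟩, ?_, ?_, ?_⟩
  · refine hT1.subset ?_
    intro x hx
    exact ⟨hall x, hx⟩
  · ext x
    have := lim_shift x (hall x) 1 0
    simp only [zpow_one, zpow_zero, mul_one] at this
    exact this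
  · ext x
    have := lim_shift x (hall x) 0 1
    simp only [zpow_one, zpow_zero, one_mul] at this
    exact this

end Pool.Agent.H85
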