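import Mathlib
import Pool.Agent.H85.OneEnded
import Pool.Agent.H85.CircleArcs

open Equiv

namespace Pool.Agent.H85

/-- rotation -/
def rot (c : S) : Perm S := Equiv.addRight c

@[simp] lemma rot_apply (c x : S) : rot c x = x + c := rfl

lemma rot_mul (c d : S) : rot c * rot d = rot (c + d) := by
  ext x; simp [Perm.mul_apply, add_comm d c, add_assoc]

lemma rot_zero : rot 0 = 1 := by ext x; simp

lemma rot_inv (c : S) : (rot c)⁻¹ = rot (-c) := by
  rw [inv_eq_iff_mul_eq_one, rot_mul, add_neg_cancel, rot_zero]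

lemma rot_pow (c : S) (n : ℕ) : rot c ^ n = rot (n • c) := by
  induction n with
  | zero => simp [rot_zero]
  | succ n ih => rw [pow_succ, ih, rot_mul, succ_nsmul]

lemma rot_zpow (c : S) (n : ℤ) : rot c ^ n = rot (n • c) := by
  cases n with
  | ofNat n => rw [Int.ofNat_eq_natCast, zpow_natCast, rot_pow, natCast_zsmul]
  | negSucc n => rw [zpow_negSucc, rot_pow, rot_inv, negSucc_zsmul]

lemma rot_comm (c d : S) : Commute (rot c) (rot d) := by
  show rot c * rot d = rot d * rot c
  rw [rot_mul, rot_mul, add_comm]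

/-- the reflection `x ↦ -x` -/
def negP : Perm S := Equiv.neg S

@[simp] lemma negP_apply (x : S) : negP x = -x := rfl

open scoped Classical in
/-- the map that exchanges `x` and `x + 1/2` when `2x` lies in the arc `[0,s)` -/
noncomputable def flip (s : ℝ) : Perm S :=
  Function.Involutive.toPerm (fun x => if x + x ∈ arc s then x + hh else x) (by
    intro x
    have e : (x + hh) + (x + hh) = x + x := by
      calc (x + hh) + (x + hh) = (x + x) + (hh + hh) := by abel
        _ = x + x := by rw [hh_add, add_zero]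
    by_cases h : x + x ∈ arc s
    · simp only [h, if_true, e]
      rw [add_assoc, hh_add, add_zero]
    · simp only [h, if_false])

/-- `0 ↦ 0, 1 ↦ 1/2` -/
noncomputable def kk (c : ZMod 2) : S := if c = 0 then 0 else hh

lemma zmod2 : ∀ c : ZMod 2, c = 0 ∨ c = 1 := by decide

@[simp] lemma kk_zero : kk 0 = 0 := by simp [kk]
@[simp] lemma kk_one : kk 1 = hh := by simp [kk]

lemma one_add_one2 : (1 : ZMod 2) + 1 = 0 := by decide

lemma kk_add (c d : ZMod 2) : kk (c + d) = kk c + kk d := by
  rcases zmod2 c with rfl | rfl <;> rcases zmod2 d with rfl | rfl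
  · simp
  · simp
  · simp
  · rw [one_add_one2, kk_zero, kk_one, hh_add]

lemma kk_inj : Function.Injective kk := by
  intro c d h
  rcases zmod2 c with rfl | rfl <;> rcases zmod2 d with rfl | rfl
  · rfl
  · rw [kk_zero, kk_one] at h; exact absurd h.symm hh_ne
  · rw [kk_zero, kk_one] at h; exact absurd h hh_ne
  · rfl

lemma kk_neg (c : ZMod 2) : -kk c = kk c := by
  rcases zmod2 c with rfl | rfl
  · simp
  · rw [kk_one, neg_hh]

lemma flip_apply (s : ℝ) (x : S) : flip s x = x + kk (ind (x + x ∈ arc s)) := by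
  classical
  show (if x + x ∈ arc s then x + hh else x) = _
  unfold ind
  split_ifs with h
  · simp
  · simp


/-- near equality -/
def Near {X : Type*} (f g : Perm X) : Prop := {x | f x ≠ g x}.Finite

lemma Near.symm {X : Type*} {f g : Perm X} (h : Near f g) : Near g f := by
  unfold Near at *
  refine h.subset ?_
  intro x hx
  exact fun h => hx h.symm

lemma near_conj {X : Type*} {f g w : Perm X} (hw : w ∈ FS X) (h : Near f g) :
    Near (w * f * w⁻¹) g := by
  unfold Near at *
  rw [near_iff] at *
  have : (QuotientGroup.mk w : Perm X ⧸ FS X) = 1 := (QuotientGroup.eq_one_iff _).2 hw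
  rw [QuotientGroup.mk_mul, QuotientGroup.mk_mul, QuotientGroup.mk_inv, this, h]
  simp

/-- the multiples of `α = s/2` are pairwise distinct in the circle -/
lemma smul_inj {s : ℝ} (hirr : Irrational s) : Function.Injective (fun m : ℤ => m • (s : S)) := by
  intro m n h
  simp only at h
  have h1 : (((m : ℝ) * s - n * s : ℝ) : S) = 0 := by
    have e1 : ((m * s : ℝ) : S) = m • (s : S) := by
      rw [← zsmul_eq_mul]; rfl
    have e2 : ((n * s : ℝ) : S) = n • (s : S) := by
      rw [← zsmul_eq_mul]; rfl
    rw [AddCircle.coe_sub, e1, e2, h, sub_self]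
  rw [AddCircle.coe_eq_zero_iff] at h1
  obtain ⟨k, hk⟩ := h1
  by_contra hne
  have h2 : ((m : ℝ) - n) ≠ 0 := by
    intro h3
    apply hne
    have : (m : ℝ) = n := by linarith
    exact_mod_cast this
  apply hirr
  refine ⟨(k : ℚ) / ((m : ℚ) - n), ?_⟩
  push_cast
  rw [div_eq_iff h2]
  simp only [mul_one, zsmul_eq_mul] at hk
  rw [hk]; ring

/-- A finitely supported permutation commuting with an irrational rotation is trivial. -/
lemma rigid {k : Perm S} {c : S} (hc : Function.Injective (fun m : ℤ => m • c))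
    (hk : k ∈ FS S) (hcom : Commute k (rot c)) : k = 1 := by
  ext x
  by_contra hx
  have hfin : {y | k y ≠ y}.Finite := hk
  have hsub : Set.range (fun m : ℤ => x + m • c) ⊆ {y | k y ≠ y} := by
    rintro _ ⟨m, rfl⟩ h
    have h1 := congrArg (fun f : Perm S => f x) (hcom.zpow_right m).eq
    simp only [Perm.mul_apply, rot_zpow, rot_apply] at h1
    rw [h] at h1
    apply hx
    exact (add_right_cancel h1).symm
  have hinj : Function.Injective (fun m : ℤ => x + m • c) := by
    intro m n h
    exact hc (add_left_cancel h)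
  exact Set.infinite_range_of_injective hinj (hfin.subset hsub)

/-- separation of two points of the circle by rotated arcs -/
lemma exists_sep {s : ℝ} (hs : 0 < s) (hs2 : s < 1 / 2) (hirr : Irrational s) {P Q : S}
    (hPQ : P ≠ Q) {F : Set ℤ} (hF : F.Finite) :
    ∃ m : ℤ, m ∉ F ∧ P - m • (s : S) ∈ arc s ∧ Q - m • (s : S) ∉ arc s := by
  have hdense : Dense (Set.range (fun m : ℤ => m • (s : S))) := by
    have := (AddCircle.denseRange_zsmul_coe_iff (a := s) (p := 1)).2 (by simpa using hirr)
    exact this
  have hF' : ((fun m : ℤ => m • (s : S)) '' F).Finite := hF.image _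
  have : Nontrivial S := ⟨hh, 0, hh_ne⟩
  have : ConnectedSpace S := inferInstance
  have : T1Space S := inferInstance
  have : ∀ x : S, (nhdsWithin x {x}ᶜ).NeBot := fun x => inferInstance
  have hdense' := hdense.sdiff_finite hF'
  have ho1 : IsOpen ((fun t : ℝ => (t : S)) '' Set.Ioo 0 s) :=
    QuotientAddGroup.isOpenMap_coe _ isOpen_Ioo
  have ho2 : IsOpen ((fun t : ℝ => (t : S)) '' Set.Ioo s 1) :=
    QuotientAddGroup.isOpenMap_coe _ isOpen_Ioo
  set W : Set S := {c | P - c ∈ (fun t : ℝ => (t : S)) '' Set.Ioo 0 s} ∩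
    {c | Q - c ∈ (fun t : ℝ => (t : S)) '' Set.Ioo s 1} with hW
  have hWo : IsOpen W := by
    apply IsOpen.inter
    · exact ho1.preimage (continuous_const.sub continuous_id)
    · exact ho2.preimage (continuous_const.sub continuous_id)
  have hWne : W.Nonempty := by
    obtain ⟨d, hd0, hd1, hd⟩ := exists_rep (Q - P)
    have hd0' : 0 < d := by
      rcases eq_or_lt_of_le hd0 with h | h
      · exfalso
        subst h
        apply hPQ
        have : Q - P = 0 := by rw [← hd]; rfl
        exact (sub_eq_zero.1 this).symm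
      · exact h
    -- choose delta
    obtain ⟨δ, h1, h2, h3, h4⟩ : ∃ δ : ℝ, 0 < δ ∧ δ < s ∧ s < d + δ ∧ d + δ < 1 := by
      by_cases hds : s ≤ d
      · refine ⟨min s (1 - d) / 2, ?_, ?_, ?_, ?_⟩
        · have : 0 < min s (1 - d) := lt_min hs (by linarith)
          linarith
        · have : min s (1 - d) ≤ s := min_le_left _ _
          linarith
        · have : 0 < min s (1 - d) := lt_min hs (by linarith)
          linarith
        · have : min s (1 - d) ≤ 1 - d := min_le_right _ _
          have : 0 < min s (1 - d) := lt_min hs (by linarith)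
          linarith
      · push Not at hds
        refine ⟨s - d / 2, by linarith, by linarith, by linarith, by linarith⟩
    refine ⟨P - (δ : S), ?_, ?_⟩
    · refine ⟨δ, ⟨h1, h2⟩, ?_⟩
      show (δ : S) = P - (P - (δ : S))
      abel
    · refine ⟨d + δ, ⟨h3, h4⟩, ?_⟩
      show ((d + δ : ℝ) : S) = Q - (P - (δ : S))
      rw [AddCircle.coe_add, hd]
      abel
  obtain ⟨c, hcW, hcD⟩ := hdense'.inter_open_nonempty W hWo hWne
  obtain ⟨⟨m, rfl⟩, hmF⟩ := hcD
  refine ⟨m, fun h => hmF ⟨m, h, rfl⟩, ?_, ?_⟩
  · obtain ⟨t, ht, ht'⟩ := hcW.1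
    exact ⟨t, ht.1.le, ht.2, ht'⟩
  · obtain ⟨t, ht, ht'⟩ := hcW.2
    simp only at ht'
    rw [← ht', mem_arc (by linarith [ht.1]) ht.2 (by linarith)]
    linarith [ht.1]

section corelemmas

variable {s : ℝ} {u : Perm S}

lemma half_add_half (s : ℝ) : ((s / 2 : ℝ) : S) + ((s / 2 : ℝ) : S) = (s : S) := by
  rw [← AddCircle.coe_add]; congr 1; ring

/-- the fibres `{x, x + 1/2}` are preserved by every permutation commuting with the lifts -/
lemma fibre (hs : 0 < s) (hs2 : s < 1 / 2) (hirr : Irrational s) (hu : Near u (flip s))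
    (w : Perm S) (hwz : w * rot hh = rot hh * w)
    (hwu : ∀ m : ℤ, Commute w (rot ((s / 2 : ℝ) : S) ^ m * u * rot ((s / 2 : ℝ) : S) ^ (-m)))
    (p : S) : w p = p ∨ w p = p + hh := by
  by_contra hcon
  push Not at hcon
  obtain ⟨h1, h2⟩ := hcon
  set q := w p with hq
  set α : S := ((s / 2 : ℝ) : S) with hα
  have hPQ : p + p ≠ q + q := by
    intro h
    have h3 : (2 : ℤ) • (q - p) = 0 := by
      rw [two_zsmul]
      calc q - p + (q - p) = (q + q) - (p + p) := by abel
        _ = 0 := by rw [h, sub_self]
    obtain ⟨d, hd0, hd1, hd⟩ := exists_rep (q - p)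
    rw [← hd, two_zsmul, ← AddCircle.coe_add] at h3
    by_cases hdd : d + d < 1
    · have h4 : d + d = 0 := coe_inj (by linarith) hdd le_rfl one_pos h3
      have h5 : d = 0 := by linarith
      apply h1
      rw [h5] at hd
      have : q - p = 0 := by rw [← hd]; rfl
      exact sub_eq_zero.1 this
    · push Not at hdd
      have h4 : ((d + d - 1 : ℝ) : S) = ((0 : ℝ) : S) := by
        rw [coe_sub_one]; exact h3
      have h5 : d + d - 1 = 0 := coe_inj (by linarith) (by linarith) le_rfl one_pos h4
      have h6 : d = 1 / 2 := by linarith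
      apply h2
      rw [h6] at hd
      have : q = p + (q - p) := by abel
      rw [this, ← hd]
      rfl
  have hsinj : Function.Injective (fun m : ℤ => m • α) := by
    have hirr2 : Irrational (s / 2) := by
      have := hirr.div_natCast (m := 2) (by norm_num)
      simpa using this
    exact smul_inj hirr2
  have hfin : {x | u x ≠ flip s x}.Finite := hu
  have hF1 : {m : ℤ | p - m • α ∈ {x | u x ≠ flip s x}}.Finite := by
    apply hfin.preimage
    apply Function.Injective.injOn
    intro m n h
    exact hsinj (sub_right_inj.1 h)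
  have hF2 : {m : ℤ | q - m • α ∈ {x | u x ≠ flip s x}}.Finite := by
    apply hfin.preimage
    apply Function.Injective.injOn
    intro m n h
    exact hsinj (sub_right_inj.1 h)
  obtain ⟨m, hm, hmP, hmQ⟩ := exists_sep hs hs2 hirr hPQ (hF1.union hF2)
  rw [Set.mem_union, not_or] at hm
  obtain ⟨hm1, hm2⟩ := hm
  have hm1' : u (p - m • α) = flip s (p - m • α) := by
    by_contra h; exact hm1 h
  have hm2' : u (q - m • α) = flip s (q - m • α) := by
    by_contra h; exact hm2 h
  have eP : (p - m • α) + (p - m • α) = (p + p) - m • (s : S) := by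
    rw [← half_add_half s, smul_add]; abel
  have eQ : (q - m • α) + (q - m • α) = (q + q) - m • (s : S) := by
    rw [← half_add_half s, smul_add]; abel
  rw [flip_apply, eP] at hm1'
  rw [flip_apply, eQ] at hm2'
  have i1 : ind ((p + p) - m • (s : S) ∈ arc s) = 1 := by simp [ind, hmP]
  have i2 : ind ((q + q) - m • (s : S) ∈ arc s) = 0 := by simp [ind, hmQ]
  rw [i1, kk_one] at hm1'
  rw [i2, kk_zero, add_zero] at hm2'
  have hc := congrArg (fun f : Perm S => f p) (hwu m).eq
  simp only [Perm.mul_apply, rot_zpow, rot_apply, neg_smul] at hc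
  rw [← hq, ← sub_eq_add_neg, ← sub_eq_add_neg, hm1', hm2', sub_add_cancel] at hc
  have e1 : p - m • α + hh + m • α = p + hh := by abel
  rw [e1] at hc
  have hz := congrArg (fun f : Perm S => f p) hwz
  simp only [Perm.mul_apply, rot_apply] at hz
  rw [hz, ← hq] at hc
  exact hh_ne (add_eq_left.1 hc)

end corelemmas

end Pool.Agent.H85
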