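import Mathlib
import Pool.Agent.H85.CirclePerms

open Equiv

namespace Pool.Agent.H85

lemma zmod2_add_self (c : ZMod 2) : c + c = 0 := by
  rcases zmod2 c with rfl | rfl <;> decide

lemma zmod2_eq_of_add {c d : ZMod 2} (h : c + d = 0) : c = d := by
  rcases zmod2 c with rfl | rfl <;> rcases zmod2 d with rfl | rfl <;> revert h <;> decide

/-- **Parity contradiction.** There are no two finitely supported functions with values in `ZMod 2`
on the lattice satisfying the cocycle relation and the symmetry relation. -/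
lemma parity (N : ℕ) (ea eb : ℤ → ℤ → ZMod 2)
    (hea : ∀ m n, (N : ℤ) ≤ |m| ∨ (N : ℤ) ≤ |n| → ea m n = 0)
    (heb : ∀ m n, (N : ℤ) ≤ |m| ∨ (N : ℤ) ≤ |n| → eb m n = 0)
    (hco : ∀ m n, ea m n + eb (m - 1) n = eb m n + ea m (n - 1))
    (hsym : ∀ m : ℤ, ea (-m) 0 + ea (m + 1) 0 = if m = 0 ∨ m = -1 then 1 else 0) : False := by
  -- row sums
  set T : ℤ → ZMod 2 := fun n => ∑ i ∈ Finset.range (2 * N), ea (-(N : ℤ) + 1 + i) n with hT
  have hstep : ∀ n, T n = T (n - 1) := by
    intro n
    apply zmod2_eq_of_add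
    simp only [hT]
    rw [← Finset.sum_add_distrib]
    have h1 : ∀ i ∈ Finset.range (2 * N), ea (-(N : ℤ) + 1 + i) n + ea (-(N : ℤ) + 1 + i) (n - 1) =
        eb (-(N : ℤ) + (i + 1 : ℕ)) n - eb (-(N : ℤ) + (i : ℕ)) n := by
      intro i _
      have h2 := hco (-(N : ℤ) + 1 + i) n
      have e1 : -(N : ℤ) + 1 + i - 1 = -(N : ℤ) + (i : ℕ) := by ring
      have e2 : -(N : ℤ) + ((i + 1 : ℕ) : ℤ) = -(N : ℤ) + 1 + i := by push_cast; ring
      rw [e1] at h2
      rw [e2]
      have h4 := zmod2_add_self (ea (-(N : ℤ) + 1 + i) (n - 1))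
      linear_combination h2 + h4
    rw [Finset.sum_congr rfl h1, Finset.sum_range_sub (fun i : ℕ => eb (-(N : ℤ) + i) n)]
    have e3 : eb (-(N : ℤ) + ((2 * N : ℕ) : ℤ)) n = 0 := by
      apply heb; left
      push_cast
      rw [show -(N : ℤ) + 2 * N = N by ring, abs_of_nonneg (by positivity)]
    have e4 : eb (-(N : ℤ) + ((0 : ℕ) : ℤ)) n = 0 := by
      apply heb; left
      simp
    rw [e3, e4, sub_zero]
  have hT0 : T 0 = 0 := by
    have h1 : ∀ k : ℕ, T k = T 0 := by
      intro k
      induction k with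
      | zero => rfl
      | succ k ih =>
        have := hstep ((k + 1 : ℕ) : ℤ)
        rw [this, ← ih]
        congr 1
        push_cast; ring
    rw [← h1 N]
    simp only [hT]
    apply Finset.sum_eq_zero
    intro i _
    apply hea; right
    simp
  have hT1 : T 0 = ∑ i ∈ Finset.range N, (ea (-(i : ℤ)) 0 + ea (i + 1) 0) := by
    simp only [hT]
    rw [two_mul, Finset.sum_range_add, Finset.sum_add_distrib]
    congr 1
    · rw [← Finset.sum_range_reflect]
      apply Finset.sum_congr rfl
      intro i hi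
      rw [Finset.mem_range] at hi
      congr 1
      have : ((N - 1 - i : ℕ) : ℤ) = N - 1 - i := by
        omega
      rw [this]; ring
    · apply Finset.sum_congr rfl
      intro i _
      congr 1
      push_cast; ring
  have hT2 : ∑ i ∈ Finset.range N, (ea (-(i : ℤ)) 0 + ea (i + 1) 0) =
      ∑ i ∈ Finset.range N, (if i = 0 then (1 : ZMod 2) else 0) := by
    apply Finset.sum_congr rfl
    intro i _
    rw [hsym]
    congr 1
    simp only [eq_iff_iff]
    omega
  rw [hT1, hT2] at hT0
  have hN : N ≠ 0 := by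
    rintro rfl
    have h1 := hsym 0
    rw [hea _ _ (by left; simp), hea _ _ (by left; simp)] at h1
    simp at h1
  rw [Finset.sum_ite_eq' (Finset.range N) 0 (fun _ => (1 : ZMod 2))] at hT0
  rw [if_pos (Finset.mem_range.2 (Nat.pos_of_ne_zero hN))] at hT0
  exact absurd hT0 (by decide)

lemma coe_zsmul' (m : ℤ) (c : ℝ) : m • (c : S) = ((m * c : ℝ) : S) := by
  rw [← zsmul_eq_mul]; rfl

/-- two rationally independent rotations generate a free action of `ℤ²` -/
lemma lattice_zero {s t : ℝ} (hind : ∀ m n k : ℤ, (m : ℝ) * s + n * t = k → m = 0 ∧ n = 0)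
    {m n : ℤ} (h : m • ((s / 2 : ℝ) : S) + n • ((t / 2 : ℝ) : S) = 0) : m = 0 ∧ n = 0 := by
  rw [coe_zsmul', coe_zsmul', ← AddCircle.coe_add, AddCircle.coe_eq_zero_iff] at h
  obtain ⟨k, hk⟩ := h
  apply hind m n (2 * k)
  push_cast
  simp only [zsmul_eq_mul, mul_one] at hk
  linarith

/-- The core contradiction, normalised form. -/
theorem core_aux {s t : ℝ} (hs : 0 < s) (hs2 : s < 1 / 2) (ht : 0 < t) (ht2 : t < 1 / 2)
    (hind : ∀ m n k : ℤ, (m : ℝ) * s + n * t = k → m = 0 ∧ n = 0)
    (z r u v : Perm S) (hz : Near z (rot hh)) (hr : Near r negP)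
    (hu : Near u (flip s)) (hv : Near v (flip t))
    (haz : rot ((s / 2 : ℝ) : S) * z = z * rot ((s / 2 : ℝ) : S))
    (hra : r * rot ((s / 2 : ℝ) : S) * r⁻¹ = (rot ((s / 2 : ℝ) : S))⁻¹)
    (huz : u * z = z * u) (hvz : v * z = z * v)
    (huu : ∀ m : ℤ, Commute u (rot ((s / 2 : ℝ) : S) ^ m * u * rot ((s / 2 : ℝ) : S) ^ (-m)))
    (hvu : ∀ m : ℤ, Commute v (rot ((s / 2 : ℝ) : S) ^ m * u * rot ((s / 2 : ℝ) : S) ^ (-m)))
    (hcoc : u * (rot ((s / 2 : ℝ) : S) * v * (rot ((s / 2 : ℝ) : S))⁻¹) =
      v * (rot ((t / 2 : ℝ) : S) * u * (rot ((t / 2 : ℝ) : S))⁻¹))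
    (hsym : r * u * r⁻¹ = (rot ((s / 2 : ℝ) : S))⁻¹ * u * rot ((s / 2 : ℝ) : S)) : False := by
  set α : S := ((s / 2 : ℝ) : S) with hα
  set β : S := ((t / 2 : ℝ) : S) with hβ
  have hlz : ∀ m n : ℤ, m • α + n • β = 0 → m = 0 ∧ n = 0 := fun m n h => lattice_zero hind h
  have hirr : Irrational s := by
    rintro ⟨q, hq⟩
    have h1 := hind q.den 0 q.num (by
      rw [← hq]; push_cast; rw [mul_comm, zero_mul, add_zero]
      exact_mod_cast Rat.mul_den_eq_num q)
    have := q.den_ne_zero
    omega
  have hαinj : Function.Injective (fun m : ℤ => m • α) := by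
    intro m n h
    simp only at h
    have := hlz (m - n) 0 (by rw [sub_smul, h, sub_self, zero_smul, add_zero])
    omega
  -- z and r are exact
  have hz1 : z = rot hh := by
    have h1 : z * (rot hh)⁻¹ ∈ FS S := by
      have h2 := near_iff.1 hz
      rw [← QuotientGroup.eq_one_iff, QuotientGroup.mk_mul, QuotientGroup.mk_inv, h2, mul_inv_cancel]
    have h2 : Commute (z * (rot hh)⁻¹) (rot α) := by
      apply Commute.mul_left
      · exact haz.symm
      · exact (rot_comm hh α).inv_left
    have h3 := rigid hαinj h1 h2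
    exact mul_inv_eq_one.1 h3
  have hnegrot : ∀ c : S, negP * rot c * negP⁻¹ = (rot c)⁻¹ := by
    intro c
    rw [rot_inv]
    ext x
    have e : negP⁻¹ x = -x := rfl
    simp only [Perm.mul_apply, e, rot_apply, negP_apply]
    abel
  have hr1 : r = negP := by
    have h1 : negP⁻¹ * r ∈ FS S := by
      have h2 := near_iff.1 hr
      rw [← QuotientGroup.eq_one_iff, QuotientGroup.mk_mul, QuotientGroup.mk_inv, h2,
        inv_mul_cancel]
    have h2 : Commute (negP⁻¹ * r) (rot α) := by
      show negP⁻¹ * r * rot α = rot α * (negP⁻¹ * r)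
      have e1 : r * rot α = (rot α)⁻¹ * r := by rw [← hra]; group
      have e2 : negP * rot α = (rot α)⁻¹ * negP := by rw [← hnegrot α]; group
      have e3 : negP⁻¹ * (rot α)⁻¹ = rot α * negP⁻¹ := by
        calc negP⁻¹ * (rot α)⁻¹ = negP⁻¹ * ((rot α)⁻¹ * negP) * negP⁻¹ := by group
          _ = negP⁻¹ * (negP * rot α) * negP⁻¹ := by rw [e2]
          _ = rot α * negP⁻¹ := by group
      calc negP⁻¹ * r * rot α = negP⁻¹ * (r * rot α) := by group
        _ = negP⁻¹ * ((rot α)⁻¹ * r) := by rw [e1]
        _ = (negP⁻¹ * (rot α)⁻¹) * r := by group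
        _ = (rot α * negP⁻¹) * r := by rw [e3]
        _ = rot α * (negP⁻¹ * r) := by group
    have h3 := rigid hαinj h1 h2
    exact (inv_mul_eq_one.1 h3).symm
  subst hz1
  subst hr1
  -- fibres
  have fu := fibre hs hs2 hirr hu u huz huu
  have fv := fibre hs hs2 hirr hu v hvz hvu
  -- parity functions
  set A : S → ZMod 2 := fun x => ind (u x ≠ x) with hA
  set B : S → ZMod 2 := fun x => ind (v x ≠ x) with hB
  have uA : ∀ x, u x = x + kk (A x) := by
    intro x
    simp only [hA, ind]
    by_cases h : u x = x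
    · simp [h]
    · rw [if_pos h, kk_one]
      exact (fu x).resolve_left h
  have vB : ∀ x, v x = x + kk (B x) := by
    intro x
    simp only [hB, ind]
    by_cases h : v x = x
    · simp [h]
    · rw [if_pos h, kk_one]
      exact (fv x).resolve_left h
  have A_hh : ∀ x, A (x + hh) = A x := by
    intro x
    have h1 := congrArg (fun f : Perm S => f x) huz
    simp only [Perm.mul_apply, rot_apply] at h1
    rw [uA, uA] at h1
    apply kk_inj
    have h2 : x + hh + kk (A (x + hh)) = x + hh + kk (A x) := by rw [h1]; abel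
    exact add_left_cancel h2
  have B_hh : ∀ x, B (x + hh) = B x := by
    intro x
    have h1 := congrArg (fun f : Perm S => f x) hvz
    simp only [Perm.mul_apply, rot_apply] at h1
    rw [vB, vB] at h1
    apply kk_inj
    have h2 : x + hh + kk (B (x + hh)) = x + hh + kk (B x) := by rw [h1]; abel
    exact add_left_cancel h2
  have A_kk : ∀ x c, A (x + kk c) = A x := by
    intro x c
    rcases zmod2 c with rfl | rfl
    · simp
    · rw [kk_one, A_hh]
  have B_kk : ∀ x c, B (x + kk c) = B x := by
    intro x c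
    rcases zmod2 c with rfl | rfl
    · simp
    · rw [kk_one, B_hh]
  have cocAB : ∀ x, A x + B (x - α) = B x + A (x - β) := by
    intro x
    have h1 := congrArg (fun f : Perm S => f x) hcoc
    simp only [Perm.mul_apply, rot_inv, rot_apply] at h1
    rw [vB (x + -α), uA (x + -β)] at h1
    have e1 : x + -α + kk (B (x + -α)) + α = x + kk (B (x - α)) := by
      rw [sub_eq_add_neg]; abel
    have e2 : x + -β + kk (A (x + -β)) + β = x + kk (A (x - β)) := by
      rw [sub_eq_add_neg]; abel
    rw [e1, e2, uA, vB, A_kk, B_kk] at h1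
    rw [add_assoc, add_assoc, ← kk_add, ← kk_add] at h1
    have h2 := kk_inj (add_left_cancel h1)
    rw [add_comm (A x), add_comm (B x)]
    exact h2
  have symA : ∀ x, A (-x) = A (x + α) := by
    intro x
    have h1 := congrArg (fun f : Perm S => f x) hsym
    have e : negP⁻¹ x = -x := rfl
    simp only [Perm.mul_apply, rot_inv, rot_apply, negP_apply, e] at h1
    rw [uA, uA] at h1
    have h2 : x + kk (A (-x)) = x + kk (A (x + α)) := by
      have e1 : -(-x + kk (A (-x))) = x + kk (A (-x)) := by
        rw [neg_add, neg_neg, kk_neg]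
      have e2 : x + α + kk (A (x + α)) + -α = x + kk (A (x + α)) := by abel
      rw [← e1, ← e2]; exact h1
    exact kk_inj (add_left_cancel h2)
  -- deviations
  set ea : S → ZMod 2 := fun x => A x + ind (x + x ∈ arc s) with hea
  set eb : S → ZMod 2 := fun x => B x + ind (x + x ∈ arc t) with heb
  have ea_fin : {x | ea x ≠ 0}.Finite := by
    refine Set.Finite.subset hu ?_
    intro x hx h
    apply hx
    rw [uA, flip_apply] at h
    have := kk_inj (add_left_cancel h)
    simp only [hea, this]
    exact zmod2_add_self _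
  have eb_fin : {x | eb x ≠ 0}.Finite := by
    refine Set.Finite.subset hv ?_
    intro x hx h
    apply hx
    rw [vB, flip_apply] at h
    have := kk_inj (add_left_cancel h)
    simp only [heb, this]
    exact zmod2_add_self _
  have ss : α + α = (s : S) := half_add_half s
  have tt : β + β = (t : S) := half_add_half t
  have coe_ : ∀ x, ea x + eb (x - α) = eb x + ea (x - β) := by
    intro x
    have h1 := cocAB x
    have h2 := ind_cocycle hs ht (by linarith) (x + x)
    have e1 : (x - α) + (x - α) = x + x - (s : S) := by rw [← ss]; abel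
    have e2 : (x - β) + (x - β) = x + x - (t : S) := by rw [← tt]; abel
    simp only [hea, heb, e1, e2]
    linear_combination h1 + h2
  have sym_ : ∀ x, ea (-x) + ea (x + α) = ind (x + x = 0) + ind (x + x = -(s : S)) := by
    intro x
    have h1 := symA x
    have h2 := ind_symm hs (by linarith) (x + x)
    have e1 : (-x) + (-x) = -(x + x) := by abel
    have e2 : (x + α) + (x + α) = (x + x) + (s : S) := by rw [← ss]; abel
    simp only [hea, e1, e2]
    have h3 := zmod2_add_self (A (x + α))
    linear_combination h1 + h2 + h3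
  -- transfer to the lattice
  have hLinj : Function.Injective (fun p : ℤ × ℤ => p.1 • α + p.2 • β) := by
    rintro ⟨m, n⟩ ⟨k, l⟩ h
    simp only at h
    have := hlz (m - k) (n - l) (by
      rw [sub_smul, sub_smul]
      calc m • α - k • α + (n • β - l • β) = (m • α + n • β) - (k • α + l • β) := by abel
        _ = 0 := by rw [h, sub_self])
    ext <;> simp <;> omega
  obtain ⟨N, hN⟩ : ∃ N : ℕ, ∀ m n : ℤ, ((N : ℤ) ≤ |m| ∨ (N : ℤ) ≤ |n|) →
      ea (m • α + n • β) = 0 ∧ eb (m • α + n • β) = 0 := by
    have f1 := (ea_fin.preimage hLinj.injOn).union (eb_fin.preimage hLinj.injOn)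
    obtain ⟨M, hM⟩ := (f1.image (fun p : ℤ × ℤ => |p.1| + |p.2|)).bddAbove
    refine ⟨(M + 1).toNat, fun m n hmn => ?_⟩
    by_contra hcon
    have hmem : (m, n) ∈ (fun p : ℤ × ℤ => p.1 • α + p.2 • β) ⁻¹' {x | ea x ≠ 0} ∪
        (fun p : ℤ × ℤ => p.1 • α + p.2 • β) ⁻¹' {x | eb x ≠ 0} := by
      by_cases h : ea (m • α + n • β) = 0
      · right
        intro h'
        exact hcon ⟨h, h'⟩
      · left; exact h
    have := hM ⟨(m, n), hmem, rfl⟩
    simp only at this
    have h1 := abs_nonneg m
    have h2 := abs_nonneg n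
    have h3 := Int.self_le_toNat (M + 1)
    omega
  refine parity N (fun m n => ea (m • α + n • β)) (fun m n => eb (m • α + n • β))
    (fun m n h => (hN m n h).1) (fun m n h => (hN m n h).2) ?_ ?_
  · intro m n
    have h1 := coe_ (m • α + n • β)
    have e1 : m • α + n • β - α = (m - 1) • α + n • β := by rw [sub_smul, one_smul]; abel
    have e2 : m • α + n • β - β = m • α + (n - 1) • β := by rw [sub_smul, one_smul]; abel
    rw [e1, e2] at h1
    exact h1
  · intro m
    have h1 := sym_ (m • α)
    have e1 : -(m • α) = (-m) • α + (0 : ℤ) • β := by rw [neg_smul, zero_smul, add_zero]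
    have e2 : m • α + α = (m + 1) • α + (0 : ℤ) • β := by
      rw [add_smul, one_smul, zero_smul, add_zero]
    rw [e1, e2] at h1
    show ea ((-m) • α + (0 : ℤ) • β) + ea ((m + 1) • α + (0 : ℤ) • β) = _
    rw [h1]
    have e3 : m • α + m • α = 0 ↔ m = 0 := by
      constructor
      · intro h
        have := hlz (m + m) 0 (by rw [add_smul, h, zero_smul, add_zero])
        omega
      · rintro rfl; simp
    have e4 : m • α + m • α = -(s : S) ↔ m = -1 := by
      constructor
      · intro h
        have := hlz (m + m + 2) 0 (by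
          rw [add_smul, add_smul, h, zero_smul, add_zero, two_zsmul, ss, neg_add_cancel])
        omega
      · rintro rfl
        rw [neg_smul, one_smul, ← ss]; abel
    rw [e3, e4]
    unfold ind
    by_cases c1 : m = 0
    · subst c1; simp
    · by_cases c2 : m = -1
      · subst c2; simp
      · simp [c1, c2]

end Pool.Agent.H85
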