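import Mathlib
import Pool.Agent.H85.RealizeCore

open Equiv Filter Topology

namespace Pool.Agent.H85

/-- A real function that is continuous and injective near `t₀` maps neighbourhoods of `t₀` to
neighbourhoods of its value. -/
lemma nhds_le_map_real {g : ℝ → ℝ} {t₀ δ : ℝ} (hδ : 0 < δ)
    (hc : ContinuousOn g (Set.Icc (t₀ - δ) (t₀ + δ)))
    (hi : Set.InjOn g (Set.Icc (t₀ - δ) (t₀ + δ))) : 𝓝 (g t₀) ≤ map g (𝓝 t₀) := by
  intro V hV
  rw [mem_map] at hV
  obtain ⟨η, hη, hηV⟩ := Metric.mem_nhds_iff.1 hV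
  set ε := min δ (η / 2) with hε
  have hε0 : 0 < ε := lt_min hδ (by linarith)
  have hεδ : ε ≤ δ := min_le_left _ _
  have hεη : ε < η := lt_of_le_of_lt (min_le_right _ _) (by linarith)
  have hsub : Set.Icc (t₀ - ε) (t₀ + ε) ⊆ Set.Icc (t₀ - δ) (t₀ + δ) :=
    Set.Icc_subset_Icc (by linarith) (by linarith)
  have hV' : g '' Set.Icc (t₀ - ε) (t₀ + ε) ⊆ V := by
    rintro _ ⟨t, ht, rfl⟩
    apply hηV
    rw [Metric.mem_ball, Real.dist_eq, abs_lt]
    constructor <;> linarith [ht.1, ht.2]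
  have hle : t₀ - ε ≤ t₀ + ε := by linarith
  have hc' := hc.mono hsub
  have hi' := hi.mono hsub
  have m0 : t₀ ∈ Set.Icc (t₀ - ε) (t₀ + ε) := ⟨by linarith, by linarith⟩
  have m1 : t₀ - ε ∈ Set.Icc (t₀ - ε) (t₀ + ε) := ⟨le_rfl, hle⟩
  have m2 : t₀ + ε ∈ Set.Icc (t₀ - ε) (t₀ + ε) := ⟨hle, le_rfl⟩
  rcases hc'.strictMonoOn_of_injOn_Icc' hle hi' with h | h
  · have h1 := h m1 m0 (by linarith)
    have h2 := h m0 m2 (by linarith)
    refine mem_of_superset (Icc_mem_nhds h1 h2) ?_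
    exact (intermediate_value_Icc hle hc').trans hV'
  · have h1 := h m1 m0 (by linarith)
    have h2 := h m0 m2 (by linarith)
    refine mem_of_superset (Icc_mem_nhds h2 h1) ?_
    exact (intermediate_value_Icc' hle hc').trans hV'

/-- The inverse of a bijection of the circle which is continuous off a finite set is continuous
at the image of each point off that set. -/
lemma continuousAt_inv {f : Perm S} (hf : {x | ¬ ContinuousAt f x}.Finite) {x : S}
    (hx : ContinuousAt f x) : ContinuousAt (f⁻¹ : Perm S) (f x) := by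
  obtain ⟨t₀, -, -, rfl⟩ := exists_rep x
  obtain ⟨r₀, -, -, hr₀⟩ := exists_rep (f (t₀ : S))
  -- the chart at the value
  set ch : S → ℝ := fun y => ((AddCircle.equivIco 1 (r₀ - 1 / 2) y : Set.Ico _ _) : ℝ) with hch
  have hch_coe : ∀ y, ((ch y : ℝ) : S) = y := fun y => AddCircle.coe_equivIco
  have hch_cont : ∀ y, y ≠ ((r₀ - 1 / 2 : ℝ) : S) → ContinuousAt ch y := by
    intro y hy
    exact continuous_subtype_val.continuousAt.comp (AddCircle.continuousAt_equivIco 1 _ hy)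
  have hch0 : ch (f (t₀ : S)) = r₀ := by
    have h1 : ch (f (t₀ : S)) ∈ Set.Ico (r₀ - 1 / 2) (r₀ - 1 / 2 + 1) :=
      (AddCircle.equivIco 1 (r₀ - 1 / 2) (f (t₀ : S))).2
    have h2 : ((ch (f (t₀ : S)) : ℝ) : S) = (r₀ : S) := by rw [hch_coe, hr₀]
    exact (AddCircle.coe_eq_coe_iff_of_mem_Ico (p := (1 : ℝ)) h1
      ⟨by linarith, by linarith⟩).1 h2
  set g : ℝ → ℝ := fun t => ch (f (t : S)) with hg
  have hgc : ∀ t : ℝ, ((g t : ℝ) : S) = f (t : S) := fun t => hch_coe _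
  -- continuity near `t₀`
  have hne : f (t₀ : S) ≠ ((r₀ - 1 / 2 : ℝ) : S) := by
    rw [← hr₀]
    intro h
    have h1 := (AddCircle.coe_eq_coe_iff_of_mem_Ico (p := (1 : ℝ)) (a := r₀ - 1 / 2)
      (x := r₀) (y := r₀ - 1 / 2) ⟨by linarith, by linarith⟩ ⟨le_rfl, by linarith⟩).1 h
    linarith
  have hev1 : ∀ᶠ y in 𝓝 (t₀ : S), ContinuousAt f y := by
    have h1 : ({x | ¬ ContinuousAt f x}ᶜ) ∈ 𝓝 (t₀ : S) := by
      apply hf.isClosed.isOpen_compl.mem_nhds
      simpa using hx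
    filter_upwards [h1] with y hy
    simpa using hy
  have hev2 : ∀ᶠ y in 𝓝 (t₀ : S), f y ≠ ((r₀ - 1 / 2 : ℝ) : S) :=
    hx.eventually_ne hne
  have hcoe : Tendsto (fun t : ℝ => (t : S)) (𝓝 t₀) (𝓝 (t₀ : S)) :=
    (AddCircle.continuous_mk' 1).continuousAt
  have hev : ∀ᶠ t in 𝓝 t₀, ContinuousAt g t := by
    filter_upwards [hcoe.eventually hev1, hcoe.eventually hev2] with t h1 h2
    have h3 : ContinuousAt (fun t : ℝ => f (t : S)) t :=
      ContinuousAt.comp (g := f) h1 (AddCircle.continuous_mk' 1).continuousAt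
    exact ContinuousAt.comp (g := ch) (hch_cont _ h2) h3
  obtain ⟨η, hη, hηc⟩ := Metric.eventually_nhds_iff.1 hev
  set δ := min (η / 2) (1 / 4) with hδ
  have hδ0 : 0 < δ := lt_min (by linarith) (by norm_num)
  have hδη : δ < η := lt_of_le_of_lt (min_le_left _ _) (by linarith)
  have hδ4 : δ ≤ 1 / 4 := min_le_right _ _
  have hc : ContinuousOn g (Set.Icc (t₀ - δ) (t₀ + δ)) := by
    intro t ht
    apply ContinuousAt.continuousWithinAt
    apply hηc
    rw [Real.dist_eq, abs_lt]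
    constructor <;> linarith [ht.1, ht.2]
  have hi : Set.InjOn g (Set.Icc (t₀ - δ) (t₀ + δ)) := by
    intro t ht t' ht' h
    have h1 : (t : S) = (t' : S) := by
      apply f.injective
      rw [← hgc, ← hgc, h]
    exact (AddCircle.coe_eq_coe_iff_of_mem_Ico (p := (1 : ℝ)) (a := t₀ - 1 / 4)
      ⟨by linarith [ht.1], by linarith [ht.2]⟩ ⟨by linarith [ht'.1], by linarith [ht'.2]⟩).1 h1
  have hmap := nhds_le_map_real hδ0 hc hi
  -- conclusion
  intro V hV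
  have e0 : (f⁻¹ : Perm S) (f (t₀ : S)) = (t₀ : S) := f.symm_apply_apply _
  rw [e0] at hV
  rw [mem_map]
  have h1 : (fun t : ℝ => (t : S)) ⁻¹' V ∈ 𝓝 t₀ := hcoe hV
  have h2 : g '' ((fun t : ℝ => (t : S)) ⁻¹' V) ∈ 𝓝 (g t₀) := hmap (image_mem_map h1)
  have h3 : (fun t : ℝ => (t : S)) '' (g '' ((fun t : ℝ => (t : S)) ⁻¹' V)) ∈ 𝓝 ((g t₀ : ℝ) : S) :=
    QuotientAddGroup.isOpenMap_coe.image_mem_nhds h2
  rw [hgc] at h3
  refine mem_of_superset h3 ?_
  rintro _ ⟨_, ⟨t, ht, rfl⟩, rfl⟩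
  show (f⁻¹ : Perm S) ((g t : ℝ) : S) ∈ V
  rw [hgc]
  have e1 : (f⁻¹ : Perm S) (f (t : S)) = (t : S) := f.symm_apply_apply _
  rw [e1]
  exact ht

end Pool.Agent.H85
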