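import Mathlib
import Pool.Agent.H85.RealizeCore
import Pool.Agent.H85.CircleInv

open Equiv Filter Topology

namespace Pool.Agent.H85

lemma double_eq {x y : S} (h : x + x = y + y) : y = x ∨ y = x + hh := by
  have h3 : (y - x) + (y - x) = 0 := by
    calc y - x + (y - x) = (y + y) - (x + x) := by abel
      _ = 0 := by rw [h, sub_self]
  obtain ⟨d, hd0, hd1, hd⟩ := exists_rep (y - x)
  rw [← hd, ← AddCircle.coe_add] at h3
  by_cases hdd : d + d < 1
  · have h4 : d + d = 0 := coe_inj (by linarith) hdd le_rfl one_pos h3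
    have h5 : d = 0 := by linarith
    left
    rw [h5] at hd
    have : y - x = 0 := by rw [← hd]; rfl
    exact sub_eq_zero.1 this
  · push Not at hdd
    have h4 : ((d + d - 1 : ℝ) : S) = ((0 : ℝ) : S) := by
      rw [coe_sub_one]; exact h3
    have h5 : d + d - 1 = 0 := coe_inj (by linarith) (by linarith) le_rfl one_pos h4
    have h6 : d = 1 / 2 := by linarith
    right
    rw [h6] at hd
    have : y = x + (y - x) := by abel
    rw [this, ← hd]
    rfl

lemma finite_double (k : S) : {x : S | x + x = k}.Finite := by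
  by_cases h : ∃ x : S, x + x = k
  · obtain ⟨x, hx⟩ := h
    refine (Set.toFinite {x, x + hh}).subset ?_
    intro y hy
    rcases double_eq (x := x) (y := y) (by rw [hx]; exact hy.symm) with h | h
    · left; exact h
    · right; exact h
  · convert Set.finite_empty
    ext y
    simp only [Set.mem_ofPred_eq, Set.mem_empty_iff_false, iff_false]
    exact fun hy => h ⟨y, hy⟩

lemma neBot_S (x : S) : (𝓝[≠] x).NeBot := by
  have : Nontrivial S := ⟨hh, 0, hh_ne⟩
  have : ConnectedSpace S := inferInstance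
  have : T1Space S := inferInstance
  exact inferInstance

/-- locally isometric at `x` -/
def LI (f : Perm S) (x : S) : Prop :=
  ∃ ε : ℤ, (ε = 1 ∨ ε = -1) ∧ ∃ c : S, ∀ᶠ y in 𝓝 x, f y = ε • y + c

lemma LI.continuousAt {f : Perm S} {x : S} (h : LI f x) : ContinuousAt f x := by
  obtain ⟨ε, -, c, hc⟩ := h
  have h1 : ContinuousAt (fun y : S => ε • y + c) x :=
    ((continuous_zsmul ε).add continuous_const).continuousAt
  exact h1.congr (hc.mono fun y hy => hy.symm)

lemma LI.mul {f g : Perm S} {x : S} (hg : LI g x) (hf : LI f (g x)) : LI (f * g) x := by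
  have hcont := hg.continuousAt
  obtain ⟨ε, hε, c, hc⟩ := hg
  obtain ⟨ε', hε', c', hc'⟩ := hf
  refine ⟨ε' * ε, ?_, ε' • c + c', ?_⟩
  · rcases hε with rfl | rfl <;> rcases hε' with rfl | rfl <;> simp
  · filter_upwards [hc, hcont.eventually hc'] with y h1 h2
    rw [Perm.mul_apply, h2, h1, smul_add, mul_smul, add_assoc]

lemma LI.inv {f : Perm S} {x : S} (hf : LI f x) : LI f⁻¹ (f x) := by
  obtain ⟨ε, hε, c, hc⟩ := hf
  have hεε : ε * ε = 1 := by rcases hε with rfl | rfl <;> norm_num
  refine ⟨ε, hε, -(ε • c), ?_⟩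
  have hx := hc.self_of_nhds
  have h1 : Tendsto (fun y : S => ε • y + -(ε • c)) (𝓝 (f x)) (𝓝 x) := by
    have h2 : Continuous (fun y : S => ε • y + -(ε • c)) :=
      (continuous_zsmul ε).add continuous_const
    have h3 := h2.tendsto (f x)
    have h4 : ε • f x + -(ε • c) = x := by
      rw [hx, smul_add, smul_smul, hεε, one_smul]; abel
    rw [h4] at h3
    exact h3
  filter_upwards [h1.eventually hc] with y hy
  have h5 : f (ε • y + -(ε • c)) = y := by
    rw [hy, smul_add, smul_neg, smul_smul, smul_smul, hεε, one_smul, one_smul]; abel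
  rw [Perm.inv_eq_iff_eq]
  exact h5.symm

/-- locally isometric off a finite set -/
def LocIso (f : Perm S) : Prop := {x | ¬ LI f x}.Finite

lemma LocIso.mul {f g : Perm S} (hf : LocIso f) (hg : LocIso g) : LocIso (f * g) := by
  have h1 : (g ⁻¹' {x | ¬ LI f x}).Finite := Set.Finite.preimage g.injective.injOn hf
  refine (Set.Finite.union hg h1).subset ?_
  intro x hx
  by_contra hcon
  simp only [Set.mem_union, Set.mem_ofPred_eq, Set.mem_preimage, not_or, not_not] at hcon
  exact hx (LI.mul hcon.1 hcon.2)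

lemma LocIso.inv {f : Perm S} (hf : LocIso f) : LocIso f⁻¹ := by
  have h1 : (f '' {x | ¬ LI f x}).Finite := Set.Finite.image f hf
  refine h1.subset ?_
  intro y hy
  by_contra hcon
  apply hy
  have h2 : LI f (f⁻¹ y) := by
    by_contra h3
    exact hcon ⟨f⁻¹ y, h3, f.apply_symm_apply y⟩
  have h3 := h2.inv
  have e : f (f⁻¹ y) = y := f.apply_symm_apply y
  rw [e] at h3
  exact h3

lemma locIso_rot (c : S) : LocIso (rot c) := by
  have : {x | ¬ LI (rot c) x} = ∅ := by
    ext x
    simp only [Set.mem_ofPred_eq, Set.mem_empty_iff_false, iff_false, not_not]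
    exact ⟨1, Or.inl rfl, c, Eventually.of_forall fun y => by simp⟩
  unfold LocIso
  rw [this]; exact Set.finite_empty

lemma locIso_neg : LocIso negP := by
  have : {x | ¬ LI negP x} = ∅ := by
    ext x
    simp only [Set.mem_ofPred_eq, Set.mem_empty_iff_false, iff_false, not_not]
    exact ⟨-1, Or.inr rfl, 0, Eventually.of_forall fun y => by simp⟩
  unfold LocIso
  rw [this]; exact Set.finite_empty

lemma locIso_flip {s : ℝ} (hs : 0 < s) (hs1 : s < 1) : LocIso (flip s) := by
  have hfin : ({x : S | x + x = 0} ∪ {x : S | x + x = (s : S)}).Finite :=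
    (finite_double 0).union (finite_double _)
  refine hfin.subset ?_
  intro x hx
  by_contra hcon
  simp only [Set.mem_union, Set.mem_ofPred_eq, not_or] at hcon
  obtain ⟨h0, h1⟩ := hcon
  apply hx
  obtain ⟨r, hr0, hr1, hr⟩ := exists_rep (x + x)
  have hr0' : 0 < r := by
    rcases eq_or_lt_of_le hr0 with h | h
    · exfalso; apply h0; rw [← hr, ← h]; rfl
    · exact h
  have hcont : Tendsto (fun y : S => y + y) (𝓝 x) (𝓝 (x + x)) :=
    (continuous_id.add continuous_id).tendsto x
  rcases lt_trichotomy r s with h | h | h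
  · have hW : (fun t : ℝ => (t : S)) '' Set.Ioo 0 s ∈ 𝓝 (x + x) :=
      (QuotientAddGroup.isOpenMap_coe _ isOpen_Ioo).mem_nhds ⟨r, ⟨hr0', h⟩, hr⟩
    refine ⟨1, Or.inl rfl, hh, ?_⟩
    filter_upwards [hcont.eventually_mem hW] with y hy
    obtain ⟨t, ht, ht'⟩ := hy
    have : ind (y + y ∈ arc s) = 1 := by
      have h2 : y + y ∈ arc s := ⟨t, ht.1.le, ht.2, ht'⟩
      simp [ind, h2]
    rw [flip_apply, this, kk_one, one_smul]
  · exfalso; apply h1; rw [← hr, h]
  · have hW : (fun t : ℝ => (t : S)) '' Set.Ioo s 1 ∈ 𝓝 (x + x) :=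
      (QuotientAddGroup.isOpenMap_coe _ isOpen_Ioo).mem_nhds ⟨r, ⟨h, hr1⟩, hr⟩
    refine ⟨1, Or.inl rfl, 0, ?_⟩
    filter_upwards [hcont.eventually_mem hW] with y hy
    obtain ⟨t, ht, ht'⟩ := hy
    have : ind (y + y ∈ arc s) = 0 := by
      have h2 : ¬ (y + y ∈ arc s) := by
        simp only at ht'
        rw [← ht', mem_arc (by linarith [ht.1]) ht.2 hs1.le]
        linarith [ht.1]
      simp [ind, h2]
    rw [flip_apply, this, kk_zero, one_smul]

/-- A permutation which is locally isometric off a finite set has the form `± x + c` on each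
connected set avoiding the finite set. -/
lemma LocIso.on_connected {f : Perm S} {U : Set S} (hU : IsPreconnected U)
    (hd : Disjoint U {x | ¬ LI f x}) :
    ∃ ε : ℤ, (ε = 1 ∨ ε = -1) ∧ ∃ c : S, ∀ x ∈ U, f x = ε • x + c := by
  rcases U.eq_empty_or_nonempty with rfl | ⟨x₀, hx₀⟩
  · exact ⟨1, Or.inl rfl, 0, fun x hx => absurd hx (Set.notMem_empty x)⟩
  have hLI : ∀ x ∈ U, LI f x := by
    intro x hx
    by_contra h
    exact Set.disjoint_left.1 hd hx h
  obtain ⟨ε, hε, c, hc⟩ := hLI x₀ hx₀
  refine ⟨ε, hε, c, ?_⟩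
  set V : Set S := {x | ∀ᶠ y in 𝓝 x, f y = ε • y + c} with hV
  have hVo : IsOpen V := isOpen_setOfPred_eventually_nhds
  have hsub : U ⊆ V := by
    apply hU.subset_of_closure_inter_subset hVo ⟨x₀, hx₀, hc⟩
    rintro x ⟨hxV, hxU⟩
    obtain ⟨ε', hε', c', hc'⟩ := hLI x hxU
    have hc'' : ∀ᶠ y in 𝓝 x, ∀ᶠ z in 𝓝 y, f z = ε' • z + c' := hc'.eventually_nhds
    obtain ⟨y, hyV, hy⟩ : ∃ y, y ∈ V ∧ ∀ᶠ z in 𝓝 y, f z = ε' • z + c' := by
      have := mem_closure_iff_frequently.1 hxV
      obtain ⟨y, hy1, hy2⟩ := (this.and_eventually hc'').exists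
      exact ⟨y, hy1, hy2⟩
    have hyV' : ∀ᶠ z in 𝓝 y, f z = ε • z + c := hyV
    have hboth : {z | ε • z + c = ε' • z + c'} ∈ 𝓝 y := by
      filter_upwards [hyV', hy] with z h1 h2
      show ε • z + c = ε' • z + c'
      rw [← h1, ← h2]
    have hinf : {z | ε • z + c = ε' • z + c'}.Infinite := by
      have := neBot_S y
      exact infinite_of_mem_nhds y hboth
    have hεε : ε = ε' := by
      by_contra hne
      apply hinf
      rcases hε with rfl | rfl <;> rcases hε' with rfl | rfl
      · exact absurd rfl hne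
      · refine (finite_double (c' - c)).subset ?_
        intro z hz
        simp only [Set.mem_ofPred_eq, one_smul, neg_smul] at hz ⊢
        calc z + z = (z + c) + z - c := by abel
          _ = (-z + c') + z - c := by rw [hz]
          _ = c' - c := by abel
      · refine (finite_double (c - c')).subset ?_
        intro z hz
        simp only [Set.mem_ofPred_eq, one_smul, neg_smul] at hz ⊢
        calc z + z = (z + c') + z - c' := by abel
          _ = (-z + c) + z - c' := by rw [hz]
          _ = c - c' := by abel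
      · exact absurd rfl hne
    subst hεε
    obtain ⟨z, hz⟩ := hinf.nonempty
    have hcc : c = c' := add_left_cancel hz
    subst hcc
    exact hc'
  intro x hx
  exact (hsub hx).self_of_nhds

end Pool.Agent.H85
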