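import Mathlib
import Pool.Agent.H85.LocIso

open Equiv Filter Topology
open scoped commutatorElement

namespace Pool.Agent.H85

/-- off a finite set, `f x = ε x + c` or `f x = ε x + c + 1/2` -/
def LevQ (ε : ℤ) (c : S) (f : Perm S) : Prop :=
  {x | ¬ (f x = ε • x + c ∨ f x = ε • x + c + hh)}.Finite

lemma eps_hh {ε : ℤ} (hε : ε = 1 ∨ ε = -1) : ε • hh = hh := by
  rcases hε with rfl | rfl
  · simp
  · rw [neg_smul, one_smul, neg_hh]

lemma LevQ.one : LevQ 1 0 1 := by
  have : {x : S | ¬ ((1 : Perm S) x = (1 : ℤ) • x + 0 ∨ (1 : Perm S) x = (1 : ℤ) • x + 0 + hh)} = ∅ := by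
    ext x; simp
  unfold LevQ
  rw [this]; exact Set.finite_empty

lemma LevQ.mul {ε ε' : ℤ} {c c' : S} {f g : Perm S} (hε : ε = 1 ∨ ε = -1) (hf : LevQ ε c f)
    (hg : LevQ ε' c' g) : LevQ (ε * ε') (ε • c' + c) (f * g) := by
  have h1 := (Set.Finite.preimage g.injective.injOn hf : (g ⁻¹' _).Finite)
  refine (Set.Finite.union hg h1).subset ?_
  intro x hx
  by_contra hcon
  rw [Set.mem_union, not_or] at hcon
  obtain ⟨k1', k2'⟩ := hcon
  have k1 : g x = ε' • x + c' ∨ g x = ε' • x + c' + hh := not_not.1 k1'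
  have k2 : f (g x) = ε • g x + c ∨ f (g x) = ε • g x + c + hh := not_not.1 k2'
  apply hx
  show (f * g) x = (ε * ε') • x + (ε • c' + c) ∨ (f * g) x = (ε * ε') • x + (ε • c' + c) + hh
  rw [Perm.mul_apply]
  have e := eps_hh hε
  rcases k1 with k1 | k1 <;> rcases k2 with k2 | k2
  · left; rw [k2, k1, smul_add, mul_smul]; abel
  · right; rw [k2, k1, smul_add, mul_smul]; abel
  · right; rw [k2, k1, smul_add, smul_add, mul_smul, e]; abel
  · left; rw [k2, k1, smul_add, smul_add, mul_smul, e]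
    calc ε • ε' • x + ε • c' + hh + c + hh = ε • ε' • x + (ε • c' + c) + (hh + hh) := by abel
      _ = ε • ε' • x + (ε • c' + c) := by rw [hh_add, add_zero]

lemma LevQ.inv {ε : ℤ} {c : S} {f : Perm S} (hε : ε = 1 ∨ ε = -1) (hf : LevQ ε c f) :
    LevQ ε (-(ε • c)) f⁻¹ := by
  have hεε : ε * ε = 1 := by rcases hε with rfl | rfl <;> norm_num
  have h1 := (Set.Finite.image f hf)
  refine h1.subset ?_
  intro y hy
  by_contra hcon
  apply hy
  have h2 : f (f⁻¹ y) = ε • (f⁻¹ y) + c ∨ f (f⁻¹ y) = ε • (f⁻¹ y) + c + hh := by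
    by_contra h3
    exact hcon ⟨f⁻¹ y, h3, f.apply_symm_apply y⟩
  have e : f (f⁻¹ y) = y := f.apply_symm_apply y
  rw [e] at h2
  have ee := eps_hh hε
  rcases h2 with h2 | h2
  · left
    have : ε • y = f⁻¹ y + ε • c := by
      conv_lhs => rw [h2]
      rw [smul_add, smul_smul, hεε, one_smul]
    rw [this]; abel
  · right
    have : ε • y = f⁻¹ y + ε • c + hh := by
      conv_lhs => rw [h2]
      rw [smul_add, smul_add, smul_smul, hεε, one_smul, ee]
    rw [this]
    calc f⁻¹ y = f⁻¹ y + (hh + hh) := by rw [hh_add, add_zero]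
      _ = f⁻¹ y + ε • c + hh + -(ε • c) + hh := by abel

lemma LevQ.comm {ε ε' : ℤ} {c c' : S} {f g : Perm S} (hε : ε = 1 ∨ ε = -1)
    (hε' : ε' = 1 ∨ ε' = -1) (hf : LevQ ε c f) (hg : LevQ ε' c' g) :
    ∃ d, LevQ 1 d ⁅f, g⁆ ∧ (ε = 1 → ε' = 1 → d = 0) := by
  have h1 := ((hf.mul hε hg).mul (ε := ε * ε') (by
    rcases hε with rfl | rfl <;> rcases hε' with rfl | rfl <;> simp) (hf.inv hε)).mul
    (ε := ε * ε' * ε) (by
    rcases hε with rfl | rfl <;> rcases hε' with rfl | rfl <;> simp) (hg.inv hε')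
  have e : ε * ε' * ε * ε' = 1 := by
    rcases hε with rfl | rfl <;> rcases hε' with rfl | rfl <;> norm_num
  rw [e] at h1
  refine ⟨_, h1, ?_⟩
  rintro rfl rfl
  simp

lemma LevQ.comm2 {f g : Perm S} (hf : LevQ 1 0 f) (hg : LevQ 1 0 g) : ⁅f, g⁆ ∈ FS S := by
  have key : Near (f * g) (g * f) := by
    unfold LevQ at hf hg
    simp only [one_smul, add_zero] at hf hg
    set E := {x | ¬ (f x = x ∨ f x = x + hh)} ∪ {x | ¬ (g x = x ∨ g x = x + hh)} with hE
    have hEfin : E.Finite := hf.union hg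
    have hE2 : ((fun x => x + hh) ⁻¹' E).Finite :=
      hEfin.preimage (add_left_injective hh).injOn
    refine (hEfin.union hE2).subset ?_
    intro x hx
    by_contra hcon
    rw [Set.mem_union, not_or, Set.mem_preimage, hE, Set.mem_union, Set.mem_union, not_or,
      not_or] at hcon
    obtain ⟨⟨a1', a2'⟩, a3', a4'⟩ := hcon
    have a1 : f x = x ∨ f x = x + hh := not_not.1 a1'
    have a2 : g x = x ∨ g x = x + hh := not_not.1 a2'
    have a3 : f (x + hh) = x + hh ∨ f (x + hh) = x + hh + hh := not_not.1 a3'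
    have a4 : g (x + hh) = x + hh ∨ g (x + hh) = x + hh + hh := not_not.1 a4'
    apply hx
    have x2 : x + hh + hh = x := by rw [add_assoc, hh_add, add_zero]
    have hne : x + hh ≠ x := fun h => hh_ne (add_eq_left.1 h)
    rw [x2] at a3 a4
    have f1 : f (x + hh) = f x + hh := by
      rcases a1 with a1 | a1
      · rcases a3 with a3 | a3
        · rw [a3, a1]
        · exfalso; apply hne; apply f.injective; rw [a3, a1]
      · rcases a3 with a3 | a3
        · exfalso; apply hne; apply f.injective; rw [a3, a1]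
        · rw [a3, a1, x2]
    have g1 : g (x + hh) = g x + hh := by
      rcases a2 with a2 | a2
      · rcases a4 with a4 | a4
        · rw [a4, a2]
        · exfalso; apply hne; apply g.injective; rw [a4, a2]
      · rcases a4 with a4 | a4
        · exfalso; apply hne; apply g.injective; rw [a4, a2]
        · rw [a4, a2, x2]
    rw [Perm.mul_apply, Perm.mul_apply]
    rcases a1 with a1 | a1 <;> rcases a2 with a2 | a2
    · rw [a1, a2, a1]
    · rw [a1, a2, f1, a1]
    · rw [a1, a2, g1, a2, a1]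
    · rw [a1, a2, f1, g1, a1, a2]
  have h2 := near_iff.1 key
  rw [← QuotientGroup.eq_one_iff]
  rw [QuotientGroup.mk_mul, QuotientGroup.mk_mul] at h2
  rw [commutatorElement_def, QuotientGroup.mk_mul, QuotientGroup.mk_mul, QuotientGroup.mk_mul, h2,
    QuotientGroup.mk_inv, QuotientGroup.mk_inv]
  group

lemma levQ_rot (c : S) : LevQ 1 c (rot c) := by
  have : {x : S | ¬ (rot c x = (1 : ℤ) • x + c ∨ rot c x = (1 : ℤ) • x + c + hh)} = ∅ := by
    ext x; simp
  unfold LevQ
  rw [this]; exact Set.finite_empty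

lemma levQ_neg : LevQ (-1) 0 negP := by
  have : {x : S | ¬ (negP x = (-1 : ℤ) • x + 0 ∨ negP x = (-1 : ℤ) • x + 0 + hh)} = ∅ := by
    ext x; simp
  unfold LevQ
  rw [this]; exact Set.finite_empty

lemma levQ_flip (s : ℝ) : LevQ 1 0 (flip s) := by
  have : {x : S | ¬ (flip s x = (1 : ℤ) • x + 0 ∨ flip s x = (1 : ℤ) • x + 0 + hh)} = ∅ := by
    ext x
    simp only [Set.mem_ofPred_eq, Set.mem_empty_iff_false, iff_false, not_not, one_smul, add_zero]
    rw [flip_apply]
    rcases zmod2 (ind (x + x ∈ arc s)) with h | h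
    · left; rw [h, kk_zero, add_zero]
    · right; rw [h, kk_one]
  unfold LevQ
  rw [this]; exact Set.finite_empty

/-- The core contradiction: there are no permutations that agree, off finite sets, with the given
elements and satisfy their relations exactly. -/
theorem core {s t : ℝ} (hs : 0 < s) (hs2 : s < 1 / 2) (ht : 0 < t) (ht2 : t < 1 / 2)
    (hind : ∀ m n k : ℤ, (m : ℝ) * s + n * t = k → m = 0 ∧ n = 0)
    (a b z r u v : Perm S) (ha : Near a (rot ((s / 2 : ℝ) : S)))
    (hb : Near b (rot ((t / 2 : ℝ) : S))) (hz : Near z (rot hh)) (hr : Near r negP)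
    (hu : Near u (flip s)) (hv : Near v (flip t))
    (hab : a * b = b * a) (haz : a * z = z * a)
    (hra : r * a * r⁻¹ = a⁻¹) (huz : u * z = z * u) (hvz : v * z = z * v)
    (huu : ∀ m : ℤ, u * (a ^ m * u * a ^ (-m)) = (a ^ m * u * a ^ (-m)) * u)
    (hvu : ∀ m : ℤ, v * (a ^ m * u * a ^ (-m)) = (a ^ m * u * a ^ (-m)) * v)
    (hcoc : u * (a * v * a⁻¹) = v * (b * u * b⁻¹))
    (hsym : r * u * r⁻¹ = a⁻¹ * u * a) : False := by
  obtain ⟨w, hw, hwa, hwb⟩ := exists_conj (rot_comm ((s / 2 : ℝ) : S) ((t / 2 : ℝ) : S))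
    (show Commute a b from hab) (by
      intro m n x h
      rw [Perm.mul_apply, rot_zpow, rot_zpow, rot_apply, rot_apply, add_assoc] at h
      have h2 := add_eq_left.1 h
      rw [add_comm] at h2
      exact lattice_zero hind h2) ha hb
  have hw' : w ∈ FS S := hw
  set C : Perm S →* Perm S := (MulAut.conj w).toMonoidHom with hC
  have hCapp : ∀ x, C x = w * x * w⁻¹ := fun x => rfl
  have hCa : C a = rot ((s / 2 : ℝ) : S) := by
    rw [hCapp, hwa]; group
  have hCb : C b = rot ((t / 2 : ℝ) : S) := by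
    rw [hCapp, hwb]; group
  refine core_aux hs hs2 ht ht2 hind (C z) (C r) (C u) (C v) (near_conj hw' hz)
    (near_conj hw' hr) (near_conj hw' hu) (near_conj hw' hv) ?_ ?_ ?_ ?_ ?_ ?_ ?_ ?_
  · rw [← hCa, ← map_mul, ← map_mul, haz]
  · rw [← hCa, ← map_mul, ← map_inv, ← map_mul, ← map_inv, hra]
  · rw [← map_mul, ← map_mul, huz]
  · rw [← map_mul, ← map_mul, hvz]
  · intro m
    show _ * _ = _ * _
    rw [← hCa, ← map_zpow, ← map_zpow, ← map_mul, ← map_mul, ← map_mul, ← map_mul, huu]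
  · intro m
    show _ * _ = _ * _
    rw [← hCa, ← map_zpow, ← map_zpow, ← map_mul, ← map_mul, ← map_mul, ← map_mul, hvu]
  · rw [← hCa, ← hCb, ← map_inv, ← map_inv, ← map_mul, ← map_mul, ← map_mul, ← map_mul,
      ← map_mul, ← map_mul, hcoc]
  · rw [← hCa, ← map_inv, ← map_inv, ← map_mul, ← map_mul, ← map_mul, ← map_mul, hsym]

/-! Relations between the explicit maps. -/

lemma arc_hh (_s : ℝ) (x : S) : (x + hh) + (x + hh) = x + x := by
  calc (x + hh) + (x + hh) = (x + x) + (hh + hh) := by abel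
    _ = x + x := by rw [hh_add, add_zero]

/-- permutations of the form `x ↦ x + φ(x)/2` with `φ(x+1/2) = φ(x)` -/
lemma kk_form_comm {f g : Perm S} {φ ψ : S → ZMod 2} (hf : ∀ x, f x = x + kk (φ x))
    (hg : ∀ x, g x = x + kk (ψ x)) (hφ : ∀ x, φ (x + hh) = φ x) (hψ : ∀ x, ψ (x + hh) = ψ x) :
    f * g = g * f := by
  have hφ' : ∀ x c, φ (x + kk c) = φ x := by
    intro x c
    rcases zmod2 c with rfl | rfl
    · simp
    · rw [kk_one, hφ]
  have hψ' : ∀ x c, ψ (x + kk c) = ψ x := by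
    intro x c
    rcases zmod2 c with rfl | rfl
    · simp
    · rw [kk_one, hψ]
  ext x
  rw [Perm.mul_apply, Perm.mul_apply, hf (g x), hg x, hg (f x), hf x, hφ', hψ']
  abel

lemma conj_flip_apply (c : S) (s : ℝ) (x : S) :
    (rot c * flip s * (rot c)⁻¹) x = x + kk (ind ((x - c) + (x - c) ∈ arc s)) := by
  rw [rot_inv, Perm.mul_apply, Perm.mul_apply, rot_apply, rot_apply, flip_apply, sub_eq_add_neg]
  abel

lemma flip_hh (s : ℝ) (c x : S) :
    ind (((x + hh) - c) + ((x + hh) - c) ∈ arc s) = ind ((x - c) + (x - c) ∈ arc s) := by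
  congr 1
  have : ((x + hh) - c) + ((x + hh) - c) = (x - c) + (x - c) := by
    have := arc_hh s (x - c)
    calc ((x + hh) - c) + ((x + hh) - c) = (x - c + hh) + (x - c + hh) := by abel
      _ = _ := this
  rw [this]

lemma flip_comm (s t : ℝ) (c : S) :
    flip t * (rot c * flip s * (rot c)⁻¹) = (rot c * flip s * (rot c)⁻¹) * flip t := by
  apply kk_form_comm (φ := fun x => ind (x + x ∈ arc t))
    (ψ := fun x => ind ((x - c) + (x - c) ∈ arc s))
  · intro x; exact flip_apply t x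
  · intro x; exact conj_flip_apply c s x
  · intro x
    show ind ((x + hh) + (x + hh) ∈ arc t) = _
    rw [arc_hh t]
  · intro x; exact flip_hh s c x

lemma flip_rot_hh (s : ℝ) : flip s * rot hh = rot hh * flip s := by
  ext x
  rw [Perm.mul_apply, Perm.mul_apply, rot_apply, rot_apply, flip_apply, flip_apply, arc_hh s]
  abel

lemma neg_rot (c : S) : negP * rot c * negP⁻¹ = (rot c)⁻¹ := by
  rw [rot_inv]
  ext x
  have e : negP⁻¹ x = -x := rfl
  simp only [Perm.mul_apply, e, rot_apply, negP_apply]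
  abel

lemma flip_cocycle {s t : ℝ} (hs : 0 < s) (ht : 0 < t) (hst : s + t < 1) :
    flip s * (rot ((s / 2 : ℝ) : S) * flip t * (rot ((s / 2 : ℝ) : S))⁻¹) =
      flip t * (rot ((t / 2 : ℝ) : S) * flip s * (rot ((t / 2 : ℝ) : S))⁻¹) := by
  have ss := half_add_half s
  have tt := half_add_half t
  ext x
  rw [Perm.mul_apply, conj_flip_apply, Perm.mul_apply (flip t), conj_flip_apply, flip_apply,
    flip_apply]
  have e1 : ∀ c : ZMod 2, x + kk c + (x + kk c) = x + x := by
    intro c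
    rcases zmod2 c with rfl | rfl
    · simp
    · rw [kk_one]; exact arc_hh s x
  rw [e1, e1, add_assoc, add_assoc, ← kk_add, ← kk_add]
  congr 2
  have h2 := ind_cocycle hs ht hst (x + x)
  have e2 : (x - ((s / 2 : ℝ) : S)) + (x - ((s / 2 : ℝ) : S)) = x + x - (s : S) := by
    rw [← ss]; abel
  have e3 : (x - ((t / 2 : ℝ) : S)) + (x - ((t / 2 : ℝ) : S)) = x + x - (t : S) := by
    rw [← tt]; abel
  rw [e2, e3]
  linear_combination h2

lemma flip_symm_near {s : ℝ} (hs : 0 < s) (hs1 : s < 1) :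
    Near (negP * flip s * negP⁻¹)
      ((rot ((s / 2 : ℝ) : S))⁻¹ * flip s * rot ((s / 2 : ℝ) : S)) := by
  have hfin := (finite_double 0).union (finite_double (-(s : S)))
  refine hfin.subset ?_
  intro x hx
  by_contra hcon
  simp only [Set.mem_union, Set.mem_ofPred_eq, not_or] at hcon
  apply hx
  have e : negP⁻¹ x = -x := rfl
  have h1 : (negP * flip s * negP⁻¹) x = x + kk (ind (-(x + x) ∈ arc s)) := by
    rw [Perm.mul_apply, Perm.mul_apply, e, flip_apply, negP_apply, neg_add, neg_neg, kk_neg]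
    congr 3
    rw [show -x + -x = -(x + x) by abel]
  have ss := half_add_half s
  have h2 : ((rot ((s / 2 : ℝ) : S))⁻¹ * flip s * rot ((s / 2 : ℝ) : S)) x =
      x + kk (ind ((x + x) + (s : S) ∈ arc s)) := by
    rw [Perm.mul_apply, Perm.mul_apply, rot_inv, rot_apply, rot_apply, flip_apply]
    rw [show x + ((s / 2 : ℝ) : S) + (x + ((s / 2 : ℝ) : S)) = (x + x) + (s : S) by
      rw [← ss]; abel]
    abel
  rw [h1, h2]
  have h3 := ind_symm hs hs1 (x + x)
  have i1 : ind (x + x = 0) = 0 := by simp [ind, hcon.1]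
  have i2 : ind (x + x = -(s : S)) = 0 := by simp [ind, hcon.2]
  rw [i1, i2, add_zero] at h3
  rw [zmod2_eq_of_add h3]

end Pool.Agent.H85
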